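import Pool.Agent.Lib.GBU.H.QuadA

set_option autoImplicit false

/-!
HEIGHTS over SMITH-U, reciprocity: two-cocycles which split over a normal subgroup `H` with cyclic
quotient of order `n`, abstract part. `E` = the extension of `G` by `A` attached to the two-cocycle
`f`, `b` splits `f` over `H`, `x ∈ E` lies over `σ`, commutes with the section over `H` and
`x ^ n = a`. Then `f = a ^ carry * dβ` (`cyc_split`), and `a ^ carry` is the cup product of the degree
and the Kummer cocycle of `a` up to a coboundary (`cup_split`).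
-/

namespace Pool.Agent.Ht.RK

open Pool.Agent.SmithC Pool.Agent.SmithC.EGrp Pool.Agent.GBUH

variable {G A : Type*} [Group G] [CommGroup A] {φ : G →* MulAut A} {f : G → G → A}
  (hf : IsTwoCoc φ f)

section

variable {H : Subgroup G} [hN : H.Normal] {b : G → A} (hb : SplA φ f H b)
variable {x : EGrp hf} (hx : ∀ h ∈ H, dfc hf b x h = 1)

theorem snd_pow (x : EGrp hf) (n : ℕ) : (x ^ n).snd = x.snd ^ n := map_pow (proj hf) x n

include hN hx in
/-- powers of `x` commute with the section -/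
theorem conj_pow (m : ℕ) {h : G} (hh : h ∈ H) :
    x ^ m * sec hf b h = sec hf b (x.snd ^ m * h * (x.snd ^ m)⁻¹) * x ^ m := by
  induction m with
  | zero => rw [pow_zero, pow_zero, one_mul, one_mul, inv_one, mul_one, mul_one]
  | succ m ih =>
    have h1 := hN.conj_mem h hh (x.snd ^ m)
    rw [pow_succ' x, mul_assoc, ih, ← mul_assoc, conj_sec' hf hx h1, mul_assoc]
    congr 2
    rw [pow_succ' x.snd]
    group

variable {n : ℕ} (hσn : x.snd ^ n ∈ H) {a : A}
  (ha : x ^ n = incl hf a * sec hf b (x.snd ^ n))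

include hN hb hx hσn ha in
theorem cyc_fixed_H {h : G} (hh : h ∈ H) : φ h a = a := by
  set τ := x.snd with hτ
  apply fixed_of_comm hf b
  have hc : (τ ^ n)⁻¹ * h * τ ^ n ∈ H := by
    have := hN.conj_mem h hh (τ ^ n)⁻¹
    rwa [inv_inv] at this
  have h1 := conj_pow hf hx n hc
  rw [← hτ] at h1
  have e1 : τ ^ n * ((τ ^ n)⁻¹ * h * τ ^ n) * (τ ^ n)⁻¹ = h := by group
  rw [e1] at h1
  have h2 : sec hf b (τ ^ n) * sec hf b ((τ ^ n)⁻¹ * h * τ ^ n) =
      sec hf b h * sec hf b (τ ^ n) := by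
    rw [← sec_mul hf hb hσn hc, ← sec_mul hf hb hh hσn]
    congr 1
    group
  rw [ha, mul_assoc, h2, ← mul_assoc, ← mul_assoc] at h1
  exact mul_right_cancel h1

include hN hx hσn ha in
theorem cyc_fixed_x : φ x.snd a = a := by
  set τ := x.snd with hτ
  have h1 := conj_sec' hf hx (h := τ ^ n) hσn
  rw [← hτ] at h1
  have e : τ * τ ^ n * τ⁻¹ = τ ^ n := by
    rw [← pow_succ', pow_succ, mul_inv_cancel_right]
  rw [e] at h1
  have h2 : x * (incl hf a * sec hf b (τ ^ n)) = incl hf a * sec hf b (τ ^ n) * x := by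
    rw [← ha, ← pow_succ', pow_succ]
  rw [← mul_assoc, mul_incl, mul_assoc, h1, ← mul_assoc] at h2
  have h3 := mul_right_cancel h2
  exact incl_inj hf (mul_right_cancel h3)

include hN hb hx hσn ha in
theorem cyc_fixed (hgen : ∀ g : G, ∃ m : ℕ, (x.snd ^ m)⁻¹ * g ∈ H) (g : G) : φ g a = a := by
  obtain ⟨m, hm⟩ := hgen g
  have h1 : ∀ m : ℕ, φ (x.snd ^ m) a = a := by
    intro m
    induction m with
    | zero => rw [pow_zero, map_one, MulAut.one_apply]
    | succ m ih => rw [pow_succ, map_mul, MulAut.mul_apply, cyc_fixed_x hf hx hσn ha, ih]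
  have h2 : g = x.snd ^ m * ((x.snd ^ m)⁻¹ * g) := by rw [mul_inv_cancel_left]
  rw [h2, map_mul, MulAut.mul_apply, cyc_fixed_H hf hb hx hσn ha hm, h1]

omit hN in
include hb hσn ha in
/-- powers of `x ^ n` -/
theorem cyc_pow (hfix : ∀ g, φ g a = a) (c : ℕ) :
    x ^ (n * c) = incl hf (a ^ c) * sec hf b (x.snd ^ (n * c)) := by
  induction c with
  | zero =>
    rw [mul_zero, pow_zero, pow_zero, pow_zero, map_one, one_mul]
    have h1 := sec_mul hf hb H.one_mem H.one_mem
    rw [mul_one] at h1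
    exact (left_eq_mul.1 h1).symm
  | succ c ih =>
    have h3 : x.snd ^ (n * c) ∈ H := by
      rw [pow_mul]
      exact H.pow_mem hσn c
    have h4 : sec hf b (x.snd ^ (n * c)) * incl hf a =
        incl hf a * sec hf b (x.snd ^ (n * c)) := by
      rw [sec_incl, hfix]
    have h5 : x ^ (n * (c + 1)) = x ^ (n * c) * x ^ n := by rw [Nat.mul_succ, pow_add]
    have h6 : x.snd ^ (n * (c + 1)) = x.snd ^ (n * c) * x.snd ^ n := by
      rw [Nat.mul_succ, pow_add]
    rw [h5, h6, ih, ha, sec_mul hf hb h3 hσn, pow_succ, map_mul, mul_assoc,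
      ← mul_assoc (sec hf b (x.snd ^ (n * c))), h4]
    simp only [mul_assoc]

include hN hx hb hσn ha in
/-- **The cyclic splitting.** `d` = a degree with values in `{0, ..., n - 1}`. -/
theorem cyc_split (hfix : ∀ g, φ g a = a) {d : G → ℕ}
    (hd : ∀ g, g * (x.snd ^ d g)⁻¹ ∈ H) {c : G → G → ℕ}
    (hc : ∀ g h, d g + d h = d (g * h) + n * c g h)
    (hdr : ∀ g, ∀ h ∈ H, d (g * h) = d g) :
    ∃ β : G → A, (∀ g h, f g h = a ^ c g h * (β g * φ g (β h) * (β (g * h))⁻¹)) ∧
      ∀ N : Subgroup G, N ≤ H → (∀ s t, ∀ n ∈ N, ∀ m ∈ N, f (s * n) (t * m) = f s t) →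
        (∀ n ∈ N, b n = b 1) → ∀ g, ∀ n ∈ N, β (g * n) = β g := by
  set τ := x.snd with hτ
  set T : G → EGrp hf := fun g => sec hf b (g * (τ ^ d g)⁻¹) * x ^ d g with hT
  have hsnd : ∀ g, (T g).snd = g := fun g => by
    change g * (τ ^ d g)⁻¹ * (x ^ d g).snd = g
    rw [snd_pow, ← hτ, inv_mul_cancel_right]
  -- multiplication with `x ^ m` on the right
  have hmul : ∀ g h, T g * T h = incl hf (a ^ c g h) * T (g * h) := by
    intro g h
    have h1 := conj_pow hf hx (d g) (hd h)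
    rw [← hτ] at h1
    have h2 : τ ^ d g * (h * (τ ^ d h)⁻¹) * (τ ^ d g)⁻¹ ∈ H := hN.conj_mem _ (hd h) _
    have h3 : g * h * (τ ^ d (g * h))⁻¹ ∈ H := hd _
    have h4 : τ ^ (n * c g h) ∈ H := by
      rw [pow_mul]
      exact H.pow_mem hσn _
    have h5 : (τ ^ (n * c g h))⁻¹ ∈ H := H.inv_mem h4
    have e1 : g * (τ ^ d g)⁻¹ * (τ ^ d g * (h * (τ ^ d h)⁻¹) * (τ ^ d g)⁻¹) =
        g * h * (τ ^ d (g * h))⁻¹ * (τ ^ (n * c g h))⁻¹ := by
      have e2 : (τ ^ d (g * h))⁻¹ * (τ ^ (n * c g h))⁻¹ = (τ ^ d h)⁻¹ * (τ ^ d g)⁻¹ := by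
        rw [← mul_inv_rev, ← mul_inv_rev, ← pow_add, ← pow_add, hc, add_comm (n * c g h)]
      rw [mul_assoc (g * h), e2]
      group
    calc T g * T h = sec hf b (g * (τ ^ d g)⁻¹) * (x ^ d g * sec hf b (h * (τ ^ d h)⁻¹)) *
          x ^ d h := by
          simp only [hT, mul_assoc]
      _ = sec hf b (g * (τ ^ d g)⁻¹) * sec hf b (τ ^ d g * (h * (τ ^ d h)⁻¹) * (τ ^ d g)⁻¹) *
          (x ^ d g * x ^ d h) := by rw [h1]; simp only [mul_assoc]
      _ = sec hf b (g * h * (τ ^ d (g * h))⁻¹ * (τ ^ (n * c g h))⁻¹) *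
          (x ^ (n * c g h) * x ^ d (g * h)) := by
          rw [← sec_mul hf hb (hd g) h2, e1, ← pow_add, ← pow_add, hc g h, add_comm (n * c g h)]
      _ = sec hf b (g * h * (τ ^ d (g * h))⁻¹) * sec hf b ((τ ^ (n * c g h))⁻¹) *
          (incl hf (a ^ c g h) * sec hf b (τ ^ (n * c g h)) * x ^ d (g * h)) := by
          rw [sec_mul hf hb h3 h5, cyc_pow hf hb hσn ha hfix]
      _ = sec hf b (g * h * (τ ^ d (g * h))⁻¹) * (sec hf b ((τ ^ (n * c g h))⁻¹) *
          incl hf (a ^ c g h)) * sec hf b (τ ^ (n * c g h)) * x ^ d (g * h) := by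
          simp only [mul_assoc]
      _ = (sec hf b (g * h * (τ ^ d (g * h))⁻¹) * incl hf (a ^ c g h)) *
          sec hf b ((τ ^ (n * c g h))⁻¹) * sec hf b (τ ^ (n * c g h)) * x ^ d (g * h) := by
          rw [sec_incl, map_pow, hfix]
          simp only [mul_assoc]
      _ = incl hf (a ^ c g h) * (sec hf b (g * h * (τ ^ d (g * h))⁻¹) *
          (sec hf b ((τ ^ (n * c g h))⁻¹) * sec hf b (τ ^ (n * c g h))) * x ^ d (g * h)) := by
          rw [sec_incl, map_pow, hfix]
          simp only [mul_assoc]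
      _ = _ := by
          rw [← sec_mul hf hb h5 h4, inv_mul_cancel]
          have h6 : sec hf b 1 = 1 := by
            have h1 := sec_mul hf hb H.one_mem H.one_mem
            rw [mul_one] at h1
            exact (left_eq_mul.1 h1)
          rw [h6, mul_one]
  refine ⟨fun g => ((T g).fst)⁻¹, fun g h => ?_, ?_⟩
  · have h1 := congrArg EGrp.fst (hmul g h)
    rw [incl_mul, fst_mk, fst_mul, hsnd, hsnd] at h1
    change f g h = a ^ c g h * (((T g).fst)⁻¹ * φ g ((T h).fst)⁻¹ * (((T (g * h)).fst)⁻¹)⁻¹)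
    rw [inv_inv, map_inv, mul_comm (((T g).fst)⁻¹ * (φ g (T h).fst)⁻¹), ← mul_assoc, ← h1]
    generalize (T g).fst = u
    generalize φ g (T h).fst = v
    rw [mul_comm (u * v), ← mul_inv, mul_inv_cancel_right]
  · intro N hNH hfN hbN g m hm
    change ((T (g * m)).fst)⁻¹ = ((T g).fst)⁻¹
    have h4 : f 1 1 = b 1 := by
      have := hb 1 H.one_mem 1 H.one_mem
      rw [map_one, MulAut.one_apply, mul_one, mul_inv_cancel_right] at this
      exact this
    have h5 : f g m = φ g (f 1 1) := by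
      have := hfN g 1 1 N.one_mem m hm
      rw [mul_one, one_mul] at this
      rw [this, hf.one_right g]
    have h6 : T (g * m) = T g * sec hf b m := by
      have h7 := conj_pow hf hx (d g) (hNH hm)
      have h8 : τ ^ d g * m * (τ ^ d g)⁻¹ ∈ H := hN.conj_mem _ (hNH hm) _
      rw [← hτ] at h7
      simp only [hT]
      rw [hdr g m (hNH hm), mul_assoc (sec hf b (g * (τ ^ d g)⁻¹)) (x ^ d g), h7, ← mul_assoc,
        ← sec_mul hf hb (hd g) h8]
      congr 2
      group
    rw [h6, fst_mul, hsnd, fst_sec, snd_sec, h5, h4, hbN m hm, map_inv, inv_mul_cancel_right]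

end

/-- **The cup product of the degree and the Kummer cocycle.** -/
theorem cup_split {n : ℕ} {a y : A} (hy : ∀ g, φ g y ^ n = a) {d : G → ℕ} {c : G → G → ℕ}
    (hc : ∀ g h, d g + d h = d (g * h) + n * c g h) (g h : G) :
    (φ g (φ h y * y⁻¹)) ^ d g = a ^ c g h *
      ((φ g y ^ d g)⁻¹ * φ g ((φ h y ^ d h)⁻¹) * (((φ (g * h) y ^ d (g * h))⁻¹)⁻¹)) := by
  rw [map_mul, map_inv, map_inv, map_pow, ← MulAut.mul_apply, ← map_mul, inv_inv, mul_pow, inv_pow,
    ← hy (g * h), ← pow_mul]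
  have h1 : φ (g * h) y ^ d g * φ (g * h) y ^ d h =
      φ (g * h) y ^ d (g * h) * φ (g * h) y ^ (n * c g h) := by
    rw [← pow_add, ← pow_add, hc]
  generalize φ g y ^ d g = u
  generalize φ (g * h) y ^ d g = v at h1
  generalize φ (g * h) y ^ d h = w at h1
  generalize φ (g * h) y ^ d (g * h) = v' at h1
  generalize φ (g * h) y ^ (n * c g h) = w' at h1
  rw [← eq_mul_inv_iff_mul_eq] at h1
  rw [h1]
  simp only [mul_assoc, mul_comm, mul_left_comm]

end Pool.Agent.Ht.RK
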