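import Pool.Agent.Lib.GBU.GeoC
import Pool.Agent.Lib.GBU.NP
import Pool.Agent.Lib.SmH.Link.Deg

set_option autoImplicit false

/-!
HEIGHTS over SMITH-U, reciprocity: the degree `Gal(Ω / K) → Z / 2^e`, `K` a global function field.

`IsDegK k e d`: `s x = x ^ (q ^ d s)` for all `x` with `x ^ (q ^ (2 ^ e)) = x`.
-/

namespace Pool.Agent.Ht.RK

open Pool.Agent.GBU Pool.Agent.Lib.SmD Pool.Agent.SmD

variable (k : Type) {K Ω : Type} [Field k] [Field K] [Field Ω] [Algebra K Ω]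

/-- `d` is the degree modulo `2 ^ e` -/
def IsDegK (e : ℕ) (d : (Ω ≃ₐ[K] Ω) → ℕ) : Prop :=
  ∀ s : Ω ≃ₐ[K] Ω, ∀ x : Ω, x ^ (Nat.card k ^ (2 ^ e)) = x → s x = x ^ (Nat.card k ^ d s)

variable {k}

instance HcK_normal {n : ℕ} : (HcK k K Ω n).Normal := by
  refine ⟨fun h hh g x hx => ?_⟩
  rw [AlgEquiv.mul_apply, AlgEquiv.mul_apply, hh (g⁻¹ x) (by rw [← map_pow, hx])]
  exact g.apply_symm_apply x

omit [Field k] in
theorem frob_expK [Finite k] {n : ℕ} (hn : 0 < n) {ζ : Ω}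
    (hζ : IsPrimitiveRoot ζ (Nat.card k ^ n - 1)) (hq3 : 3 ≤ Nat.card k) {a b : ℕ}
    (h : ζ ^ (Nat.card k ^ a) = ζ ^ (Nat.card k ^ b)) : a ≡ b [MOD n] := by
  have hQ1 : 1 ≤ Nat.card k ^ n := Nat.one_le_pow _ _ (by omega)
  have hζn : ζ ^ (Nat.card k ^ n) = ζ := by
    have h1 : Nat.card k ^ n = (Nat.card k ^ n - 1) + 1 := by omega
    rw [h1, pow_succ, hζ.pow_eq_one, one_mul]
  have hred : ∀ j : ℕ, ζ ^ (Nat.card k ^ j) = ζ ^ (Nat.card k ^ (j % n)) := by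
    intro j
    have h1 : j = j % n + n * (j / n) := (Nat.mod_add_div j n).symm
    have h3 : ∀ m : ℕ, ζ ^ (Nat.card k ^ (n * m)) = ζ := by
      intro m
      induction m with
      | zero => simp
      | succ m ih =>
        rw [Nat.mul_succ, pow_add, pow_mul, ih, hζn]
    conv_lhs => rw [h1, add_comm, pow_add, pow_mul, h3]
  rw [hred a, hred b] at h
  have hlt : ∀ j : ℕ, Nat.card k ^ (j % n) < Nat.card k ^ n - 1 := by
    intro j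
    have h1 : j % n < n := Nat.mod_lt j hn
    obtain ⟨m, rfl⟩ : ∃ m, n = m + 1 := ⟨n - 1, by omega⟩
    have h3 : Nat.card k ^ (j % (m + 1)) ≤ Nat.card k ^ m :=
      Nat.pow_le_pow_right (by omega) (by omega)
    have h4 : 1 ≤ Nat.card k ^ m := Nat.one_le_pow _ _ (by omega)
    have h5 : Nat.card k ^ m * 3 ≤ Nat.card k ^ (m + 1) := by
      rw [pow_succ]
      exact Nat.mul_le_mul_left _ hq3
    omega
  have h1 := hζ.pow_inj (hlt a) (hlt b) h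
  exact Nat.pow_right_injective (by omega : 2 ≤ Nat.card k) h1

theorem three_le [Finite k] (h2 : (2 : k) ≠ 0) : 3 ≤ Nat.card k := by
  classical
  have hq1 : 1 < Nat.card k := Finite.one_lt_card
  by_contra hcon
  have h1 : Nat.card k = 2 := by omega
  have hf : Fintype k := Fintype.ofFinite k
  apply h2
  have h3 : ((Fintype.card k : ℕ) : k) = 0 := Nat.cast_card_eq_zero k
  rw [← Nat.card_eq_fintype_card, h1] at h3
  exact_mod_cast h3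

theorem IsDegK.mono {e e' : ℕ} (hee : e ≤ e') {d : (Ω ≃ₐ[K] Ω) → ℕ} (hd : IsDegK k e' d) :
    IsDegK k e d := by
  intro s x hx
  apply hd s x
  obtain ⟨m, rfl⟩ : ∃ m, e' = e + m := ⟨e' - e, by omega⟩
  rw [pow_add 2]
  exact pow_level hx _

section

variable [Finite k] [Algebra k K] [IsSepClosed Ω] (h2 : (2 : k) ≠ 0)

include h2

theorem exists_genK (K Ω : Type) [Field K] [Field Ω] [Algebra K Ω] [Algebra k K] [IsSepClosed Ω]
    (e : ℕ) : ∃ ζ : Ω, ζ ^ (Nat.card k ^ (2 ^ e)) = ζ ∧ ∀ a b : ℕ,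
    ζ ^ (Nat.card k ^ a) = ζ ^ (Nat.card k ^ b) → a ≡ b [MOD 2 ^ e] := by
  have hn : 0 < 2 ^ e := by positivity
  obtain ⟨p, f, hp, hf, hq, hOm⟩ := card_eq_pow_C k K Ω
  have h3 := three_le h2
  have hQ1 : 1 ≤ Nat.card k ^ (2 ^ e) := Nat.one_le_pow _ _ (by omega)
  have hcast : ((Nat.card k ^ (2 ^ e) - 1 : ℕ) : Ω) = -1 := by
    rw [Nat.cast_sub hQ1, Nat.cast_pow, hq, Nat.cast_pow, CharP.cast_eq_zero, zero_pow hf.ne',
      zero_pow hn.ne', Nat.cast_one, zero_sub]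
  have : NeZero ((Nat.card k ^ (2 ^ e) - 1 : ℕ) : Ω) := ⟨by
    rw [hcast]
    exact neg_ne_zero.2 one_ne_zero⟩
  obtain ⟨ζ, hζ⟩ := HasEnoughRootsOfUnity.exists_primitiveRoot Ω (Nat.card k ^ (2 ^ e) - 1)
  refine ⟨ζ, ?_, fun a b h => frob_expK (k := k) hn hζ h3 h⟩
  have h1 : Nat.card k ^ (2 ^ e) = (Nat.card k ^ (2 ^ e) - 1) + 1 := by omega
  rw [h1, pow_succ, hζ.pow_eq_one, one_mul]

theorem IsDegK.unique {e : ℕ} {d d' : (Ω ≃ₐ[K] Ω) → ℕ} (hd : IsDegK k e d) (hd' : IsDegK k e d')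
    (s : Ω ≃ₐ[K] Ω) : d s ≡ d' s [MOD 2 ^ e] := by
  obtain ⟨ζ, h1, h3⟩ := exists_genK h2 K Ω e
  exact h3 _ _ ((hd s ζ h1).symm.trans (hd' s ζ h1))

theorem IsDegK.mul {e : ℕ} {d : (Ω ≃ₐ[K] Ω) → ℕ} (hd : IsDegK k e d) (s t : Ω ≃ₐ[K] Ω) :
    d (s * t) ≡ d s + d t [MOD 2 ^ e] := by
  obtain ⟨ζ, h1, h3⟩ := exists_genK h2 K Ω e
  apply h3
  rw [← hd (s * t) ζ h1, AlgEquiv.mul_apply, hd t ζ h1, map_pow, hd s ζ h1, ← pow_mul, ← pow_add]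

theorem IsDegK.geo {e : ℕ} {d : (Ω ≃ₐ[K] Ω) → ℕ} (hd : IsDegK k e d) {s : Ω ≃ₐ[K] Ω}
    (hs : s ∈ GeoK k K Ω) : d s ≡ 0 [MOD 2 ^ e] := by
  obtain ⟨ζ, h1, h3⟩ := exists_genK h2 K Ω e
  apply h3
  rw [← hd s ζ h1, hs ζ ⟨2 ^ e, by positivity, h1⟩, pow_zero, pow_one]

theorem IsDegK.hc {e : ℕ} {d : (Ω ≃ₐ[K] Ω) → ℕ} (hd : IsDegK k e d) {s : Ω ≃ₐ[K] Ω}
    (hs : s ∈ HcK k K Ω (2 ^ e)) : d s ≡ 0 [MOD 2 ^ e] := by
  obtain ⟨ζ, h1, h3⟩ := exists_genK h2 K Ω e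
  apply h3
  rw [← hd s ζ h1, hs ζ h1, pow_zero, pow_one]

/-- the degree of an element which acts on the constants as `x ↦ x ^ (q ^ n)` -/
theorem IsDegK.val {e : ℕ} {d : (Ω ≃ₐ[K] Ω) → ℕ} (hd : IsDegK k e d) {s : Ω ≃ₐ[K] Ω} {n : ℕ}
    (hs : ∀ x : Ω, IsC k x → s x = x ^ (Nat.card k ^ n)) : d s ≡ n [MOD 2 ^ e] := by
  obtain ⟨ζ, h1, h3⟩ := exists_genK h2 K Ω e
  apply h3
  rw [← hd s ζ h1, hs ζ ⟨2 ^ e, by positivity, h1⟩]

omit h2 [IsSepClosed Ω] in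
theorem exists_isDegK (e : ℕ) : ∃ d : (Ω ≃ₐ[K] Ω) → ℕ, IsDegK k e d := by
  have hn : 0 < 2 ^ e := by positivity
  obtain ⟨u, hu0, hu, hgen⟩ := exists_generator_C (k := k) (Om := Ω) hn
  have key : ∀ s : Ω ≃ₐ[K] Ω, ∃ j : ℕ, ∀ x : Ω, x ^ (Nat.card k ^ (2 ^ e)) = x →
      s x = x ^ (Nat.card k ^ j) := by
    intro s
    obtain ⟨i, hi⟩ := exists_pow_of_isC (k := k) ⟨_, hn, hu⟩ s
    refine ⟨i, fun x hx => ?_⟩
    rcases eq_or_ne x 0 with rfl | hx0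
    · rw [map_zero, zero_pow (pow_pos Nat.card_pos _).ne']
    · obtain ⟨j, rfl⟩ := hgen x hx0 hx
      rw [map_pow, hi, ← pow_mul, ← pow_mul, mul_comm]
  choose d hd using key
  exact ⟨d, hd⟩

/-- a compatible system of degree maps -/
theorem exists_dgK (K Ω : Type) [Field K] [Field Ω] [Algebra K Ω] [Algebra k K]
    [IsSepClosed Ω] : ∃ dg : ℕ → (Ω ≃ₐ[K] Ω) → ℕ,
    Pool.Agent.SmH.IsDeg dg ∧ ∀ m, IsDegK k m (dg m) := by
  choose d hd using fun e => exists_isDegK (k := k) (K := K) (Ω := Ω) e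
  exact ⟨d, ⟨fun m s t => (hd m).mul h2 s t, fun m s =>
    ((hd m).unique h2 ((hd (m + 1)).mono (Nat.le_succ m)) s).symm⟩, hd⟩

omit h2 [Finite k] [Algebra k K] [IsSepClosed Ω] in
/-- the relation with an element which acts on the constants as the Frobenius automorphism -/
theorem IsDegK.fr {e : ℕ} {d : (Ω ≃ₐ[K] Ω) → ℕ} (hd : IsDegK k e d) {fr : Ω ≃ₐ[K] Ω}
    (hfr : IsFrC k fr) (s : Ω ≃ₐ[K] Ω) {j : ℕ} (hj : j ≡ d s [MOD 2 ^ e]) :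
    s * (fr ^ j)⁻¹ ∈ HcK k K Ω (2 ^ e) := by
  have hn : 0 < 2 ^ e := by positivity
  have h1 : ∀ x : Ω, x ^ (Nat.card k ^ (2 ^ e)) = x → x ^ (Nat.card k ^ j) = s x := by
    intro x hx
    rw [hd s x hx]
    have h3 : ∀ a b : ℕ, a ≤ b → a ≡ b [MOD 2 ^ e] →
        x ^ (Nat.card k ^ a) = x ^ (Nat.card k ^ b) := by
      intro a b hab h
      obtain ⟨c, hc⟩ := (Nat.modEq_iff_dvd' hab).1 h
      have h4 : b = 2 ^ e * c + a := by omega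
      rw [h4, pow_add, pow_mul, pow_level hx]
    rcases le_total j (d s) with h | h
    · exact h3 _ _ h hj
    · exact (h3 _ _ h hj.symm).symm
  have h3 : ∀ x : Ω, x ^ (Nat.card k ^ (2 ^ e)) = x → (fr ^ j) x = s x := by
    intro x hx
    rw [hfr.pow j ⟨_, hn, hx⟩, h1 x hx]
  intro x hx
  rw [AlgEquiv.mul_apply]
  have h4 : ((fr ^ j)⁻¹ x) ^ (Nat.card k ^ (2 ^ e)) = (fr ^ j)⁻¹ x := by
    rw [← map_pow, hx]
  rw [← h3 _ h4]
  exact (fr ^ j).apply_symm_apply x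

omit h2 [IsSepClosed Ω] in
/-- the degree modulo `2^e` is `2`-finite -/
theorem HcK_mem [IsGalois K Ω] (e : ℕ) : HcK k K Ω (2 ^ e) ∈ NN K Ω := by
  have hn : 0 < 2 ^ e := by positivity
  refine mem_NN_of_pow inferInstance (isOpen_HcK hn) fun σ => ⟨e, ?_⟩
  obtain ⟨d, hd⟩ := exists_isDegK (k := k) (K := K) (Ω := Ω) e
  intro x hx
  have h1 : ∀ j : ℕ, (σ ^ j) x = x ^ (Nat.card k ^ (d σ * j)) := by
    intro j
    induction j with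
    | zero => simp
    | succ j ih =>
      rw [pow_succ', AlgEquiv.mul_apply, ih, map_pow, hd σ x hx, ← pow_mul, ← pow_add,
        Nat.mul_succ, add_comm]
  rw [h1, mul_comm (d σ)]
  exact pow_level hx _

end

end Pool.Agent.Ht.RK
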