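import Pool.Agent.Lib.SmD.Main
import Pool.Agent.Lib.SmD.NN

set_option autoImplicit false

/-!
HEIGHTS over SMITH-U, reciprocity: Hilbert 90, roots of unity and inertia over a general field `K`.
Cochains on subgroups of `Gal(Ω / K)` have values in `Ωˣ`.
-/

namespace Pool.Agent.Ht.RK

open Pool.Agent.Lib.SmD Pool.Agent.SmD

variable {K Ω : Type} [Field K] [Field Ω] [Algebra K Ω]

/-- `c` is locally constant on the subgroup `A` -/
def LC {α : Type} (A : Subgroup (Ω ≃ₐ[K] Ω)) (c : (Ω ≃ₐ[K] Ω) → α) : Prop :=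
  ∃ N : Subgroup (Ω ≃ₐ[K] Ω), N.Normal ∧ IsOpen (N : Set (Ω ≃ₐ[K] Ω)) ∧
    ∀ s ∈ A, ∀ n ∈ N, n ∈ A → c (s * n) = c s

/-- `c = db` on the subgroup `A` -/
def Spl (A : Subgroup (Ω ≃ₐ[K] Ω)) (c : (Ω ≃ₐ[K] Ω) → (Ω ≃ₐ[K] Ω) → Ωˣ)
    (b : (Ω ≃ₐ[K] Ω) → Ωˣ) : Prop :=
  ∀ s ∈ A, ∀ t ∈ A, c s t = b s * s • b t * (b (s * t))⁻¹

theorem LC.mono {α : Type} {A B : Subgroup (Ω ≃ₐ[K] Ω)} {c : (Ω ≃ₐ[K] Ω) → α} (h : LC A c)
    (hBA : B ≤ A) : LC B c := by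
  obtain ⟨N, h1, h2, h3⟩ := h
  exact ⟨N, h1, h2, fun s hs n hn hnB => h3 s (hBA hs) n hn (hBA hnB)⟩

theorem LC.prod {α β : Type} {A : Subgroup (Ω ≃ₐ[K] Ω)} {c : (Ω ≃ₐ[K] Ω) → α}
    {d : (Ω ≃ₐ[K] Ω) → β} (hc : LC A c) (hd : LC A d) : LC A (fun s => (c s, d s)) := by
  obtain ⟨N, h1, h2, h3⟩ := hc
  obtain ⟨N', h1', h2', h3'⟩ := hd
  refine ⟨N ⊓ N', inferInstance, ?_, fun s hs n hn hnA => ?_⟩
  · rw [Subgroup.coe_inf]
    exact h2.inter h2'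
  · change (c (s * n), d (s * n)) = (c s, d s)
    rw [h3 s hs n hn.1 hnA, h3' s hs n hn.2 hnA]

theorem LC.comp {α β : Type} {A : Subgroup (Ω ≃ₐ[K] Ω)} {c : (Ω ≃ₐ[K] Ω) → α} (h : LC A c)
    (f : α → β) : LC A (fun s => f (c s)) := by
  obtain ⟨N, h1, h2, h3⟩ := h
  exact ⟨N, h1, h2, fun s hs n hn hnA => congrArg f (h3 s hs n hn hnA)⟩

theorem LC.congr {α : Type} {A : Subgroup (Ω ≃ₐ[K] Ω)} {f g : (Ω ≃ₐ[K] Ω) → α} (h : LC A f)
    (hfg : ∀ s ∈ A, g s = f s) : LC A g := by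
  obtain ⟨N, h1, h3, h4⟩ := h
  refine ⟨N, h1, h3, fun s hs n hn hnA => ?_⟩
  rw [hfg _ (A.mul_mem hs hnA), hfg s hs, h4 s hs n hn hnA]

/-- an element of `Ωˣ` is fixed by an open normal subgroup -/
theorem exists_open_fix [IsGalois K Ω] (r : Ωˣ) :
    ∃ N : Subgroup (Ω ≃ₐ[K] Ω), N.Normal ∧ IsOpen (N : Set (Ω ≃ₐ[K] Ω)) ∧
      ∀ n ∈ N, n • r = r := by
  let L := FiniteGaloisIntermediateField.adjoin K ({(r : Ω)} : Set Ω)
  refine ⟨L.1.fixingSubgroup, ?_, IntermediateField.fixingSubgroup_isOpen L.1, ?_⟩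
  · rw [InfiniteGalois.normal_iff_isGalois]
    infer_instance
  · intro n hn
    apply Units.ext
    rw [IntermediateField.mem_fixingSubgroup_iff] at hn
    exact hn _ (FiniteGaloisIntermediateField.subset_adjoin _ _ rfl)

theorem lc_smul [IsGalois K Ω] (A : Subgroup (Ω ≃ₐ[K] Ω)) (r : Ωˣ) :
    LC A (fun s => s • r) := by
  obtain ⟨N, h1, h2, h3⟩ := exists_open_fix (K := K) r
  refine ⟨N, h1, h2, fun s _ n hn _ => ?_⟩
  change (s * n) • r = s • r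
  rw [mul_smul, h3 n hn]

/-- coboundaries are cocycles -/
theorem cob_coc (ξ : Ωˣ) (s t : Ω ≃ₐ[K] Ω) :
    (s * t) • ξ * ξ⁻¹ = (s • ξ * ξ⁻¹) * s • (t • ξ * ξ⁻¹) := by
  rw [smul_mul', smul_inv', mul_smul]
  have : ∀ a b c : Ωˣ, a * c⁻¹ = b * c⁻¹ * (a * b⁻¹) := by
    intro a b c
    rw [mul_comm a b⁻¹, mul_assoc, mul_comm c⁻¹, mul_assoc, mul_inv_cancel_left]
  exact this _ _ _

/-- Hilbert 90 for locally constant cocycles on a subgroup -/
theorem h90 [IsGalois K Ω] (A : Subgroup (Ω ≃ₐ[K] Ω)) (z : (Ω ≃ₐ[K] Ω) → Ωˣ)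
    (hz : LC A z) (hc : ∀ s ∈ A, ∀ t ∈ A, z (s * t) = z s * s • z t) :
    ∃ y : Ωˣ, ∀ s ∈ A, z s = s • y * y⁻¹ := by
  classical
  obtain ⟨N, hN, hNo, hzN⟩ := hz
  have hfin : Finite ((Ω ≃ₐ[K] Ω) ⧸ N) := Subgroup.quotient_finite_of_isOpen N hNo
  have : Fintype ((Ω ≃ₐ[K] Ω) ⧸ N) := Fintype.ofFinite _
  have hNcl : IsClosed (N : Set (Ω ≃ₐ[K] Ω)) := Subgroup.isClosed_of_isOpen N hNo
  let L : IntermediateField K Ω := IntermediateField.fixedField N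
  have hL : ∀ x : Ω, x ∈ L ↔ ∀ n ∈ N, n x = x := fun x => IntermediateField.mem_fixedField_iff N x
  have hLN : ∀ g : (Ω ≃ₐ[K] Ω), (∀ x ∈ L, g x = x) → g ∈ N := by
    intro g hg
    have h3 := InfiniteGalois.fixingSubgroup_fixedField (k := K) (K := Ω) ⟨N, hNcl⟩
    have h4 : g ∈ (IntermediateField.fixedField N).fixingSubgroup := by
      rw [IntermediateField.mem_fixingSubgroup_iff]
      exact hg
    rwa [show (IntermediateField.fixedField N).fixingSubgroup = N from h3] at h4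
  -- the image of `A` and representatives in `A`
  let T : Finset ((Ω ≃ₐ[K] Ω) ⧸ N) :=
    Finset.univ.filter fun q => ∃ a ∈ A, (QuotientGroup.mk a : (Ω ≃ₐ[K] Ω) ⧸ N) = q
  have hT : ∀ q, q ∈ T ↔ ∃ a ∈ A, (QuotientGroup.mk a : (Ω ≃ₐ[K] Ω) ⧸ N) = q := by
    intro q
    simp [T]
  have hrep : ∀ q : (Ω ≃ₐ[K] Ω) ⧸ N, ∃ a : (Ω ≃ₐ[K] Ω), q ∈ T →
      a ∈ A ∧ (QuotientGroup.mk a : (Ω ≃ₐ[K] Ω) ⧸ N) = q := by
    intro q
    by_cases hq : q ∈ T
    · obtain ⟨a, ha, h⟩ := (hT q).1 hq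
      exact ⟨a, fun _ => ⟨ha, h⟩⟩
    · exact ⟨1, fun h => absurd h hq⟩
  choose a ha using hrep
  -- the characters
  let φ : T → (L →* Ω) := fun q =>
    { toFun := fun x => a q (x : Ω)
      map_one' := by simp
      map_mul' := fun x y => by simp }
  have hφinj : Function.Injective φ := by
    intro q q' h
    apply Subtype.ext
    rw [← (ha q q.2).2, ← (ha q' q'.2).2, QuotientGroup.eq]
    apply hLN
    intro x hx
    have h1 : a q x = a q' x := DFunLike.congr_fun h ⟨x, hx⟩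
    rw [AlgEquiv.mul_apply, ← h1, ← AlgEquiv.mul_apply, inv_mul_cancel, AlgEquiv.one_apply]
  have hli := (linearIndependent_monoidHom L Ω).comp φ hφinj
  -- an element with nonzero sum
  obtain ⟨x, hx, hb⟩ : ∃ x : Ω, x ∈ L ∧ ∑ q ∈ T, (z (a q) : Ω) * a q x ≠ 0 := by
    by_contra hcon
    push Not at hcon
    have h1 : ∑ q : T, (z (a q) : Ω) • (⇑(φ q) : L → Ω) = 0 := by
      funext x
      rw [Finset.sum_apply]
      have h2 := hcon (x : Ω) x.2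
      rw [← Finset.sum_coe_sort T] at h2
      exact h2
    have h3 : (QuotientGroup.mk (1 : (Ω ≃ₐ[K] Ω)) : (Ω ≃ₐ[K] Ω) ⧸ N) ∈ T :=
      (hT _).2 ⟨1, A.one_mem, rfl⟩
    have h4 := (Fintype.linearIndependent_iff.1 hli) (fun q => (z (a q) : Ω)) h1 ⟨_, h3⟩
    exact (z _).ne_zero h4
  set b : Ω := ∑ q ∈ T, (z (a q) : Ω) * a q x with hbdef
  -- the transformation rule
  have key : ∀ h ∈ A, (z h : Ω) * h b = b := by
    intro h hh
    rw [hbdef, map_sum, Finset.mul_sum]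
    refine Finset.sum_nbij' (fun q => h • q) (fun q => h⁻¹ • q) ?_ ?_ ?_ ?_ ?_
    · intro q hq
      obtain ⟨c, hcA, hcq⟩ := (hT q).1 hq
      exact (hT _).2 ⟨h * c, A.mul_mem hh hcA, by rw [← hcq]; rfl⟩
    · intro q hq
      obtain ⟨c, hcA, hcq⟩ := (hT q).1 hq
      exact (hT _).2 ⟨h⁻¹ * c, A.mul_mem (A.inv_mem hh) hcA, by rw [← hcq]; rfl⟩
    · intro q _
      exact inv_smul_smul h q
    · intro q _
      exact smul_inv_smul h q
    · intro q hq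
      have hq' : h • q ∈ T := by
        obtain ⟨c, hcA, hcq⟩ := (hT q).1 hq
        exact (hT _).2 ⟨h * c, A.mul_mem hh hcA, by rw [← hcq]; rfl⟩
      obtain ⟨ha1, ha2⟩ := ha q hq
      obtain ⟨ha3, ha4⟩ := ha (h • q) hq'
      -- `a (h q) = h (a q) n`
      have h5 : (h * a q)⁻¹ * a (h • q) ∈ N := by
        rw [← QuotientGroup.eq, ha4,
          show (QuotientGroup.mk (h * a q) : (Ω ≃ₐ[K] Ω) ⧸ N) = h • (QuotientGroup.mk (a q)) from rfl,
          ha2]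
      have h6 : (h * a q)⁻¹ * a (h • q) ∈ A :=
        A.mul_mem (A.inv_mem (A.mul_mem hh ha1)) ha3
      have h7 : a (h • q) = h * a q * ((h * a q)⁻¹ * a (h • q)) := by
        rw [mul_inv_cancel_left]
      have h8 : z (a (h • q)) = z h * h • z (a q) := by
        rw [h7, hzN _ (A.mul_mem hh ha1) _ h5 h6, hc h hh _ ha1]
      have h9 : a (h • q) x = h (a q x) := by
        rw [h7, AlgEquiv.mul_apply, (hL x).1 hx _ h5]
        rfl
      rw [h8, h9, map_mul, Units.val_mul, mul_assoc]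
      rfl
  refine ⟨(Units.mk0 b hb)⁻¹, fun s hs => ?_⟩
  have h10 : z s * s • Units.mk0 b hb = Units.mk0 b hb := by
    apply Units.ext
    exact key s hs
  rw [smul_inv', inv_inv]
  rw [eq_comm, inv_mul_eq_iff_eq_mul, mul_comm]
  exact h10.symm

/-- roots of order `2 ^ e` -/
theorem exists_root [IsSepClosed Ω] (h2 : (2 : Ω) ≠ 0) (e : ℕ) (y : Ωˣ) :
    ∃ r : Ωˣ, r ^ (2 ^ e) = y := by
  have : NeZero ((2 ^ e : ℕ) : Ω) := ⟨by
    rw [Nat.cast_pow]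
    exact pow_ne_zero _ (by exact_mod_cast h2)⟩
  obtain ⟨z, hz⟩ := IsSepClosed.exists_pow_nat_eq (y : Ω) (2 ^ e)
  have hz0 : z ≠ 0 := by
    rintro rfl
    rw [zero_pow (by positivity)] at hz
    exact y.ne_zero hz.symm
  exact ⟨Units.mk0 z hz0, Units.ext (by rw [Units.val_pow_eq_pow_val, Units.val_mk0, hz])⟩

/-- a two-cochain with values in `μ_M` which splits over `A` with values in `Ω^*` splits with values
in `μ_M`, and the splitting differs from the given one by a coboundary -/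
theorem kumStep [IsGalois K Ω] [IsSepClosed Ω] (h2 : (2 : Ω) ≠ 0) (e : ℕ)
    (A : Subgroup (Ω ≃ₐ[K] Ω))
    (c : (Ω ≃ₐ[K] Ω) → (Ω ≃ₐ[K] Ω) → Ωˣ) (hM : ∀ s ∈ A, ∀ t ∈ A, c s t ^ (2 ^ e) = 1)
    (β : (Ω ≃ₐ[K] Ω) → Ωˣ) (hβ : LC A β) (hs : Spl A c β) :
    ∃ b : (Ω ≃ₐ[K] Ω) → Ωˣ, (∀ s, b s ^ (2 ^ e) = 1) ∧ LC A b ∧ Spl A c b := by
  classical
  obtain ⟨y, hy⟩ := h90 A (fun s => β s ^ (2 ^ e)) (hβ.comp fun u => u ^ (2 ^ e)) (by
    intro s hsA t htA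
    have h4 := congrArg (fun u => u ^ (2 ^ e)) (hs s hsA t htA)
    rw [hM s hsA t htA, mul_pow, mul_pow, inv_pow, ← smul_pow'] at h4
    change β (s * t) ^ (2 ^ e) = β s ^ (2 ^ e) * s • (β t ^ (2 ^ e))
    rw [eq_comm, mul_inv_eq_one] at h4
    exact h4.symm)
  obtain ⟨r, hr⟩ := exists_root h2 e y
  have hval : ∀ s ∈ A, (β s * (s • r * r⁻¹)⁻¹) ^ (2 ^ e) = 1 := by
    intro s hsA
    have h4 : β s ^ (2 ^ e) = s • y * y⁻¹ := hy s hsA
    rw [mul_pow, inv_pow, mul_pow, inv_pow, ← smul_pow', hr, h4, mul_inv_cancel]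
  refine ⟨fun s => if s ∈ A then β s * (s • r * r⁻¹)⁻¹ else 1, ?_, ?_, ?_⟩
  · intro s
    by_cases hsA : s ∈ A
    · simp only [hsA, if_true]
      exact hval s hsA
    · simp only [hsA, if_false, one_pow]
  · refine LC.congr ((hβ.prod (lc_smul A r)).comp fun x : Ωˣ × Ωˣ => x.1 * (x.2 * r⁻¹)⁻¹)
      fun s hsA => ?_
    rw [if_pos hsA]
  · intro s hsA t htA
    simp only [hsA, htA, A.mul_mem hsA htA, if_true]
    rw [hs s hsA t htA, smul_mul', smul_inv', smul_mul', smul_inv', mul_smul]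
    set u := s • t • r
    set v := s • r
    set w := β s
    set w' := s • β t
    set w'' := β (s * t)
    have key : ∀ (X : Type) [AddCommGroup X] (w w' w'' u v r : X),
        w + w' + -w'' = w + -(v + -r) + (w' + -(u + -v)) + -(w'' + -(u + -r)) := by
      intro X _ w w' w'' u v r
      abel
    exact key (Additive Ωˣ) w w' w'' u v r

/-- `2^e`-th roots of inertia fixed units are fixed by inertia -/
theorem root_fix_iner {w : ValuationSubring Ω} (h2 : w.valuation 2 = 1) {σ : Ω ≃ₐ[K] Ω}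
    (hσ : σ ∈ iner K w) (e : ℕ) :
    ∀ z : Ω, w.valuation z = 1 → σ (z ^ (2 ^ e)) = z ^ (2 ^ e) → σ z = z := by
  induction e with
  | zero =>
    intro z _ h
    simpa using h
  | succ e ih =>
    intro z hz h
    have h1 : z ^ (2 ^ (e + 1)) = (z ^ 2) ^ (2 ^ e) := by rw [← pow_mul, pow_succ, mul_comm]
    rw [h1] at h
    have h3 : w.valuation (z ^ 2) = 1 := by rw [map_pow, hz, one_pow]
    exact sqrt_fix_iner h2 hσ h3 (ih (z ^ 2) h3 h) rfl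

theorem val_one_of_pow {w : ValuationSubring Ω} {z : Ω} (e : ℕ)
    (h : w.valuation (z ^ (2 ^ e)) = 1) : w.valuation z = 1 := by
  rw [map_pow] at h
  exact (pow_eq_one_iff.1 h).resolve_right (by positivity)

/-- roots of unity of order a power of `2` are fixed by inertia -/
theorem mu_fix_iner {w : ValuationSubring Ω} (h2 : w.valuation 2 = 1) {σ : Ω ≃ₐ[K] Ω}
    (hσ : σ ∈ iner K w) (e : ℕ) {u : Ωˣ} (hu : u ^ (2 ^ e) = 1) : σ • u = u := by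
  have h1 : (u : Ω) ^ (2 ^ e) = 1 := by
    rw [← Units.val_pow_eq_pow_val, hu, Units.val_one]
  apply Units.ext
  change σ (u : Ω) = u
  refine root_fix_iner h2 hσ e _ (val_one_of_pow e ?_) ?_
  · rw [h1, map_one]
  · rw [h1, map_one]

/-- a locally constant homomorphism from the inertia group to `μ_(2^e)` is a power of the Kummer
character of a uniformizer -/
theorem iner_hom [IsGalois K Ω] [IsSepClosed Ω] (e : ℕ) {w : ValuationSubring Ω} {π : K}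
    (hL : LocHyp K w π) {r : Ωˣ} (hr : (r : Ω) ^ (2 ^ e) = algebraMap K Ω π)
    (ψ : (Ω ≃ₐ[K] Ω) → Ωˣ) (hM : ∀ s ∈ iner K w, ψ s ^ (2 ^ e) = 1) (hlc : LC (iner K w) ψ)
    (hhom : ∀ s ∈ iner K w, ∀ t ∈ iner K w, ψ (s * t) = ψ s * ψ t) :
    ∃ m : ℤ, ∀ s ∈ iner K w, ψ s = (s • r * r⁻¹) ^ m := by
  have hw2 : w.valuation 2 = 1 := hL.two
  obtain ⟨y, hy⟩ := h90 (iner K w) ψ hlc (fun s hs t ht => by
    rw [hhom s hs t ht, mu_fix_iner hw2 hs e (hM t ht)])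
  have hsy : ∀ s ∈ iner K w, s • y = ψ s * y := fun s hs => by
    rw [hy s hs, inv_mul_cancel_right]
  have hya : ∀ s ∈ iner K w, s ((y : Ω) ^ (2 ^ e)) = (y : Ω) ^ (2 ^ e) := by
    intro s hs
    have h1 : s • (y ^ (2 ^ e)) = y ^ (2 ^ e) := by
      rw [smul_pow', hsy s hs, mul_pow, hM s hs, one_mul]
    have h3 := congrArg (fun u : Ωˣ => (u : Ω)) h1
    simpa using h3
  obtain ⟨m, hm⟩ := value_iner hL (pow_ne_zero (2 ^ e) y.ne_zero) hya
  have hπ0 : w.valuation (algebraMap K Ω π) ≠ 0 := by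
    rw [Valuation.ne_zero_iff, map_ne_zero]
    exact hL.pi_ne
  set Z : Ωˣ := y * (r ^ m)⁻¹ with hZ
  have hZM : ((Z ^ (2 ^ e) : Ωˣ) : Ω) = (y : Ω) ^ (2 ^ e) * (algebraMap K Ω π ^ m)⁻¹ := by
    have h1 : Z ^ (2 ^ e) = y ^ (2 ^ e) * ((r ^ (2 ^ e)) ^ m)⁻¹ := by
      rw [hZ, mul_pow, inv_pow]
      congr 2
      rw [← zpow_natCast, ← zpow_mul, mul_comm m, zpow_mul, zpow_natCast]
    rw [h1, Units.val_mul, Units.val_inv_eq_inv_val, Units.val_zpow_eq_zpow_val,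
      Units.val_pow_eq_pow_val, Units.val_pow_eq_pow_val, hr]
  have hZval : w.valuation (Z : Ω) = 1 := by
    apply val_one_of_pow e
    rw [← Units.val_pow_eq_pow_val, hZM, map_mul, map_inv₀, map_zpow₀, hm,
      mul_inv_cancel₀ (zpow_ne_zero _ hπ0)]
  have hZfix : ∀ s ∈ iner K w, s • Z = Z := by
    intro s hs
    apply Units.ext
    change s (Z : Ω) = Z
    refine root_fix_iner hw2 hs e _ hZval ?_
    rw [← Units.val_pow_eq_pow_val, hZM, map_mul, map_inv₀, map_zpow₀, hya s hs,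
      AlgEquiv.commutes]
  refine ⟨m, fun s hs => ?_⟩
  have h1 := hZfix s hs
  have h4 : ∀ (u : Ωˣ) (j : ℤ), s • (u ^ j) = (s • u) ^ j := fun u j =>
    map_zpow (MulDistribMulAction.toMonoidHom Ωˣ s) u j
  rw [hZ, smul_mul', smul_inv', h4, hsy s hs] at h1
  rw [mul_zpow, inv_zpow]
  rw [mul_right_comm] at h1
  have h5 : ψ s * ((s • r) ^ m)⁻¹ * y = (r ^ m)⁻¹ * y := by rw [h1, mul_comm y]
  have h6 := mul_right_cancel h5
  rw [mul_inv_eq_iff_eq_mul] at h6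
  rw [h6, mul_comm]

end Pool.Agent.Ht.RK
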