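import Pool.Agent.Lib.Ht.RK.Lev
import Pool.Agent.Lib.Ht.RK.Cyc

set_option autoImplicit false

/-!
HEIGHTS over SMITH-U, reciprocity, global part: every locally constant two-cocycle of `Gal(Ω / K)`
with values in `μ_(2^e)` is, up to a coboundary with values in `Ω^*`, the cup product of the degree
and the Kummer cocycle of an element of `K`.
-/

namespace Pool.Agent.Ht.RK

open Pool.Agent.SmithC Pool.Agent.SmithC.EGrp Pool.Agent.Lib.SmD Pool.Agent.GBU Pool.Agent.GBUH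
open Pool.Agent.SmD

variable {k K Ω : Type} [Field k] [Finite k] [Field K] [Algebra k K] [Algebra (RatFunc k) K]
  [FiniteDimensional (RatFunc k) K] [Algebra.IsSeparable (RatFunc k) K] [Field Ω] [Algebra K Ω]
  [IsSepClosure K Ω]

/-- The action on `Ωˣ`. -/
noncomputable def actG (K Ω : Type) [Field K] [Field Ω] [Algebra K Ω] :
    (Ω ≃ₐ[K] Ω) →* MulAut Ωˣ :=
  MulDistribMulAction.toMulAut (Ω ≃ₐ[K] Ω) Ωˣ

omit [IsSepClosure K Ω] in
theorem actG_apply (g : Ω ≃ₐ[K] Ω) (u : Ωˣ) : actG K Ω g u = g • u := rfl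

omit [Field k] [Finite k] [Algebra k K] [Algebra (RatFunc k) K]
  [FiniteDimensional (RatFunc k) K] [Algebra.IsSeparable (RatFunc k) K] in
theorem exists_normal_leK (N : Subgroup (Ω ≃ₐ[K] Ω)) (hN : IsOpen (N : Set (Ω ≃ₐ[K] Ω))) :
    ∃ N' : Subgroup (Ω ≃ₐ[K] Ω), N'.Normal ∧ IsOpen (N' : Set (Ω ≃ₐ[K] Ω)) ∧ N' ≤ N := by
  have hgal : IsGalois K Ω := IsSepClosure.isGalois
  have hnh : (N : Set (Ω ≃ₐ[K] Ω)) ∈ nhds (1 : Ω ≃ₐ[K] Ω) := hN.mem_nhds N.one_mem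
  rw [krullTopology_mem_nhds_one_iff_of_normal] at hnh
  obtain ⟨E', hfd, hE'n, hE'⟩ := hnh
  have hgal' : IsGalois K E' := ⟨⟩
  exact ⟨E'.fixingSubgroup, inferInstance, IntermediateField.fixingSubgroup_isOpen E', hE'⟩

/-- **Global cocycles are cyclic.** -/
theorem glob_split (h2 : (2 : k) ≠ 0) {fr : Ω ≃ₐ[K] Ω} (hfr : IsFrC k fr) (e : ℕ)
    (F : (Ω ≃ₐ[K] Ω) → (Ω ≃ₐ[K] Ω) → Ωˣ) (hM : ∀ s t, F s t ^ (2 ^ e) = 1)
    (hF : ∃ N : Subgroup (Ω ≃ₐ[K] Ω), IsOpen (N : Set (Ω ≃ₐ[K] Ω)) ∧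
      ∀ s t, ∀ n ∈ N, ∀ m ∈ N, F (s * n) (t * m) = F s t)
    (hcoc : ∀ s t u, F s t * F (s * t) u = s • F t u * F s (t * u)) :
    ∃ (r : ℕ) (y : Ωˣ) (B : (Ω ≃ₐ[K] Ω) → Ωˣ), (∀ g : Ω ≃ₐ[K] Ω, g • (y ^ (2 ^ r)) = y ^ (2 ^ r)) ∧
      LC ⊤ B ∧ ∀ d : (Ω ≃ₐ[K] Ω) → ℕ, IsDegK k r d → ∀ s t,
        F s t = (s • (t • y * y⁻¹)) ^ d s * (B s * s • B t * (B (s * t))⁻¹) := by
  classical
  have hsc : IsSepClosed Ω := IsSepClosure.sep_closed K
  have hgal : IsGalois K Ω := IsSepClosure.isGalois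
  have h2Ω : (2 : Ω) ≠ 0 := by
    have h1 := (map_ne_zero_iff _ ((algebraMap K Ω).comp (algebraMap k K)).injective).2 h2
    rwa [map_ofNat] at h1
  obtain ⟨r, b, hbM, hbl, hb⟩ := levelK (k := k) h2 e F hM hF hcoc
  set H : Subgroup (Ω ≃ₐ[K] Ω) := HcK k K Ω (2 ^ r) with hH
  have hn : 0 < 2 ^ r := by positivity
  have hHn : H.Normal := by rw [hH]; infer_instance
  have hHo : IsOpen (H : Set (Ω ≃ₐ[K] Ω)) := isOpen_HcK hn
  have hf : IsTwoCoc (actG K Ω) F := fun s t w => hcoc s t w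
  have hb' : SplA (actG K Ω) F H b := fun s hs t ht => hb s hs t ht
  -- an open normal subgroup
  obtain ⟨N1, n1o, n1F⟩ := hF
  obtain ⟨N2, n2n, n2o, n2b⟩ := hbl
  obtain ⟨N, hNn, hNo, hNle⟩ := exists_normal_leK (N1 ⊓ (N2 ⊓ H)) (by
    rw [Subgroup.coe_inf, Subgroup.coe_inf]
    exact n1o.inter (n2o.inter hHo))
  have hN1 : N ≤ N1 := hNle.trans inf_le_left
  have hN2 : N ≤ N2 := hNle.trans (inf_le_right.trans inf_le_left)
  have hNH : N ≤ H := hNle.trans (inf_le_right.trans inf_le_right)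
  have hfN : ∀ s t, ∀ n ∈ N, ∀ m ∈ N, F (s * n) (t * m) = F s t := fun s t n hn m hm =>
    n1F s t n (hN1 hn) m (hN1 hm)
  have hbN : ∀ s ∈ H, ∀ n ∈ N, b (s * n) = b s := fun s hs n hn => n2b s hs n (hN2 hn) (hNH hn)
  -- the first lift of `fr` and its defect
  obtain ⟨x0, hx0s, hx0⟩ : ∃ x0 : EGrp hf, x0.snd = fr ∧ ∀ g, dfc hf b x0 g =
      fr • ((b (fr⁻¹ * g * fr))⁻¹) * F fr (fr⁻¹ * g * fr) * (F g fr)⁻¹ * b g := by
    refine ⟨mk hf 1 fr, rfl, fun g => ?_⟩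
    apply dfc_eq_of
    rw [mul_inv_eq_iff_eq_mul, incl_mul]
    apply ext'
    · change 1 * actG K Ω fr ((b (fr⁻¹ * g * fr))⁻¹) * F fr (fr⁻¹ * g * fr)
        = fr • ((b (fr⁻¹ * g * fr))⁻¹) * F fr (fr⁻¹ * g * fr) * (F g fr)⁻¹ * b g
          * (b g)⁻¹ * actG K Ω g 1 * F g fr
      rw [map_one (actG K Ω g), one_mul, mul_one, mul_inv_cancel_right, inv_mul_cancel_right]
      rfl
    · change fr * (fr⁻¹ * g * fr) = g * fr
      group
  have hcj : ∀ g ∈ H, fr⁻¹ * g * fr ∈ H := fun g hg => by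
    have := hHn.conj_mem g hg fr⁻¹
    rwa [inv_inv] at this
  obtain ⟨y0, hy0⟩ := h90 H (dfc hf b x0) ⟨N, hNn, hNo, by
    intro s hs n hn _
    have hnc : fr⁻¹ * n * fr ∈ N := by
      have := hNn.conj_mem n hn fr⁻¹
      rwa [inv_inv] at this
    rw [hx0, hx0]
    have e1 : fr⁻¹ * (s * n) * fr = (fr⁻¹ * s * fr) * (fr⁻¹ * n * fr) := by group
    have e2 : F fr ((fr⁻¹ * s * fr) * (fr⁻¹ * n * fr)) = F fr (fr⁻¹ * s * fr) := by
      have := hfN fr (fr⁻¹ * s * fr) 1 N.one_mem (fr⁻¹ * n * fr) hnc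
      rwa [mul_one] at this
    have e3 : F (s * n) fr = F s fr := by
      have := hfN s fr n hn 1 N.one_mem
      rwa [mul_one] at this
    rw [e1, hbN _ (hcj s hs) _ hnc, e2, e3, hbN s hs n hn]⟩
    (fun s hs t ht => dfc_crossed hf hb' x0 hs ht)
  -- the lift without defect
  obtain ⟨x1, hx1s, hx1⟩ : ∃ x1 : EGrp hf, x1.snd = fr ∧ ∀ g ∈ H, dfc hf b x1 g = 1 := by
    refine ⟨incl hf y0 * x0, by rw [snd_mul, snd_incl, one_mul, hx0s], fun g hg => ?_⟩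
    have h1 : dfc hf b x0 g = actG K Ω g y0 * y0⁻¹ := hy0 g hg
    rw [dfc_incl_mul, h1, mul_comm (actG K Ω g y0), mul_inv_cancel_left, mul_inv_cancel]
  obtain ⟨a, ha⟩ : ∃ a : Ωˣ, x1 ^ (2 ^ r) = incl hf a * sec hf b (x1.snd ^ (2 ^ r)) :=
    ⟨_, exists_incl hf (x1 ^ (2 ^ r)) (sec hf b (x1.snd ^ (2 ^ r))) (snd_pow hf x1 _)⟩
  obtain ⟨d, hd⟩ := exists_isDegK (k := k) (K := K) (Ω := Ω) r
  have hσn : x1.snd ^ (2 ^ r) ∈ H := by
    rw [hx1s]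
    intro x hx
    rw [hfr.pow _ ⟨_, hn, hx⟩, hx]
  have hgen : ∀ g : Ω ≃ₐ[K] Ω, ∃ m : ℕ, (x1.snd ^ m)⁻¹ * g ∈ H := by
    intro g
    rw [hx1s]
    exact exists_pow_inv_mul_mem hfr hn g
  have hafix : ∀ g, actG K Ω g a = a := cyc_fixed hf hb' hx1 hσn ha hgen
  -- the degree with values in `{0, ..., 2 ^ r - 1}`
  set d' : (Ω ≃ₐ[K] Ω) → ℕ := fun g => d g % 2 ^ r with hd'
  have hdd' : ∀ g, d' g ≡ d g [MOD 2 ^ r] := fun g => Nat.mod_modEq _ _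
  have hmul : ∀ g h, d' (g * h) = (d' g + d' h) % 2 ^ r := by
    intro g h
    have h1 : d (g * h) ≡ d' g + d' h [MOD 2 ^ r] :=
      (hd.mul h2 g h).trans ((hdd' g).symm.add (hdd' h).symm)
    exact h1
  have hc : ∀ g h, d' g + d' h = d' (g * h) + 2 ^ r * ((d' g + d' h) / 2 ^ r) := by
    intro g h
    rw [hmul]
    exact (Nat.mod_add_div _ _).symm
  have hd0 : ∀ h ∈ H, d' h = 0 := fun h hh => hd.hc h2 hh
  have hdr : ∀ g, ∀ h ∈ H, d' (g * h) = d' g := by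
    intro g h hh
    rw [hmul, hd0 h hh, add_zero]
    exact Nat.mod_mod _ _
  obtain ⟨β, hβ, hβN⟩ := cyc_split hf hb' hx1 hσn ha hafix (d := d')
    (fun g => by
      rw [hx1s]
      exact hd.fr hfr g (hdd' g))
    (c := fun g h => (d' g + d' h) / 2 ^ r) hc hdr
  have hβN' := hβN N hNH hfN (fun n hn => by
    have := hbN 1 H.one_mem n hn
    rwa [one_mul] at this)
  -- the root
  obtain ⟨y, hy⟩ := exists_root h2Ω r a
  have hyg : ∀ g : Ω ≃ₐ[K] Ω, actG K Ω g y ^ (2 ^ r) = a := fun g => by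
    rw [← map_pow, hy, hafix]
  refine ⟨r, y, fun g => β g * (g • y) ^ d' g, fun g => ?_, ?_, fun d1 hd1 s t => ?_⟩
  · rw [hy]
    exact hafix g
  · have l1 : LC ⊤ β := ⟨N, hNn, hNo, fun s _ n hn _ => hβN' s n hn⟩
    have l2 : LC ⊤ d' := ⟨H, hHn, hHo, fun s _ n hn _ => hdr s n hn⟩
    exact ((l1.prod (lc_smul ⊤ y)).prod l2).comp fun x : (Ωˣ × Ωˣ) × ℕ => x.1.1 * x.1.2 ^ x.2
  · have h1 := hβ s t
    have h3 := cup_split (φ := actG K Ω) hyg hc s t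
    have hpow : (s • (t • y * y⁻¹)) ^ (2 ^ r) = 1 := by
      have h5 : (t • y * y⁻¹) ^ (2 ^ r) = 1 := by
        have h6 : (t • y) ^ (2 ^ r) = a := hyg t
        rw [mul_pow, inv_pow, h6, hy, mul_inv_cancel]
      rw [← smul_pow', h5, smul_one]
    have h4 : (s • (t • y * y⁻¹)) ^ d1 s = (s • (t • y * y⁻¹)) ^ d' s := by
      have h5 : d1 s ≡ d' s [MOD 2 ^ r] := (hd1.unique h2 hd s).trans (hdd' s).symm
      rw [pow_eq_pow_mod _ hpow, h5, ← pow_eq_pow_mod _ hpow]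
    rw [h4]
    change (s • (t • y * y⁻¹)) ^ d' s = a ^ ((d' s + d' t) / 2 ^ r) *
      (((s • y) ^ d' s)⁻¹ * s • ((t • y) ^ d' t)⁻¹ * ((((s * t) • y) ^ d' (s * t))⁻¹)⁻¹) at h3
    change F s t = a ^ ((d' s + d' t) / 2 ^ r) * (β s * s • β t * (β (s * t))⁻¹) at h1
    change F s t = (s • (t • y * y⁻¹)) ^ d' s * (β s * (s • y) ^ d' s *
      s • (β t * (t • y) ^ d' t) * (β (s * t) * ((s * t) • y) ^ d' (s * t))⁻¹)
    rw [h3, h1, smul_mul', smul_inv']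
    generalize a ^ ((d' s + d' t) / 2 ^ r) = A
    generalize (s • y) ^ d' s = u
    generalize s • (t • y) ^ d' t = v
    generalize ((s * t) • y) ^ d' (s * t) = w
    generalize β s = u'
    generalize s • β t = v'
    generalize β (s * t) = w'
    have key : ∀ (X : Type) [AddCommGroup X] (A u v w u' v' w' : X),
        A + (u' + v' + -w') = A + (-u + -v + - -w) + (u' + u + (v' + v) + -(w' + w)) := by
      intro X _ A u v w u' v' w'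
      abel
    exact key (Additive Ωˣ) A u v w u' v' w'

end Pool.Agent.Ht.RK
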