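import Pool.Agent.Lib.Ht.RK.Rec
import Pool.Agent.Lib.SmNH.Link.Main
import Pool.Agent.Lib.SmN.R.LocK

set_option autoImplicit false

/-!
HEIGHTS over SMITH-U, reciprocity: `DegOk` for every system over `Gal(Ω / K)` with the decomposition
groups `dvK`, the tame generators `sgK`, coefficients `MuT Ω`, `k` the constant field of `K`.
-/

namespace Pool.Agent.Ht.RK

open Pool.Agent.Lib.SmD Pool.Agent.GBU Pool.Agent.SmD Pool.Agent.BSDFF Pool.Agent.SmP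
open Pool.Agent.Ht

variable {k K Ω : Type} [Field k] [Finite k] [Field K] [Algebra k K] [Algebra (RatFunc k) K]
  [IsScalarTower k (RatFunc k) K] [FiniteDimensional (RatFunc k) K]
  [Algebra.IsSeparable (RatFunc k) K] [Field Ω] [Algebra K Ω] [IsSepClosure K Ω]
  {V V1 : Type*} [AddCommGroup V] [DistribMulAction (Ω ≃ₐ[K] Ω) V]
  [AddCommGroup V1] [Module (ZMod 2) V1]

omit [Algebra.IsSeparable (RatFunc k) K] in
theorem isPDegK_degree (h2 : (2 : k) ≠ 0) :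
    IsPDegK Ω (fun v : Place k K => v.degree) := by
  rintro v x ⟨n, hn, hx⟩
  exact SmN.R.ph_cst h2 v hn hx

/-- `RecDeg` for a system over `Gal(Ω / K)` -/
theorem recDegK (h2 : (2 : k) ≠ 0) {fr : Ω ≃ₐ[K] Ω} (hfr : IsFrC k fr)
    (S : SmN.Sys (Ω ≃ₐ[K] Ω) V V1 (Place k K)) (hNN : S.NN = NP K Ω)
    (hD : ∀ v, S.D v = dvK Ω v) (hsg : ∀ v, S.sg v = sgK Ω v)
    {nm : Place k K → MuT Ω →+ MuT Ω} {deg : Place k K → ℕ} (hdeg : ∀ v, deg v = v.degree)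
    (hprod : ∀ h : (Ω ≃ₐ[K] Ω) → MuT Ω, S.TF h → (∀ s t, h (s * t) = h s + s • h t) →
      ∑ᶠ v, deg v • nm v (h (S.sg v)) = 0)
    {dg : ℕ → (Ω ≃ₐ[K] Ω) → ℕ} (hdg : Pool.Agent.SmH.IsDeg dg)
    (hact : ∀ m, IsDegK k m (dg m)) : SmNH.RecDeg S dg deg nm := by
  intro F c B hF hFc hcT hBT hcc hFB hfin
  have hdeg' : IsPDegK Ω deg := by
    have h1 : deg = fun v : Place k K => v.degree := funext hdeg
    rw [h1]
    exact isPDegK_degree h2
  have hg : IsGalois K Ω := IsSepClosure.isGalois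
  have e1 : ∀ v, deg v • nm v (c v (S.sg v)) = deg v • nm v (c v (sgK Ω v)) := fun v => by
    rw [hsg v]
  rw [finsum_congr e1]
  refine rec_degK h2 hfr (B := B) hdeg' hdg hact ?_ F c ?_ hFc ?_ ?_ ?_
  · intro h htf hc
    have e3 : ∀ v, deg v • nm v (h (sgK Ω v)) = deg v • nm v (h (S.sg v)) := fun v => by
      rw [hsg v]
    rw [finsum_congr e3]
    refine hprod h ?_ hc
    obtain ⟨N, hN, h1⟩ := htf
    exact ⟨N, by rw [hNN]; exact hN, h1⟩
  · obtain ⟨N, hN, h1⟩ := hF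
    exact ⟨N, by rw [← hNN]; exact hN, h1⟩
  · intro v
    obtain ⟨N, hN, h1⟩ := hcT v
    refine ⟨N, by rw [← hNN]; exact hN, ?_⟩
    rw [← hD v]
    exact h1
  · intro v
    obtain ⟨N, hN, h1⟩ := hBT v
    refine ⟨N, by rw [← hNN]; exact hN, ?_⟩
    rw [← hD v]
    exact h1
  · intro v
    rw [← hD v]
    exact hFB v

/-- the degree modulo `2 ^ m` is finite -/
theorem degTFK (h2 : (2 : k) ≠ 0) (S : SmN.Sys (Ω ≃ₐ[K] Ω) V V1 (Place k K))
    (hNN : S.NN = NP K Ω) {dg : ℕ → (Ω ≃ₐ[K] Ω) → ℕ} (hact : ∀ m, IsDegK k m (dg m)) :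
    SmNH.DegTF S dg := by
  intro m
  have hsc : IsSepClosed Ω := IsSepClosure.sep_closed K
  have hg : IsGalois K Ω := IsSepClosure.isGalois
  have h2K : (2 : K) ≠ 0 := by
    have h1 := (map_ne_zero_iff _ (algebraMap k K).injective).2 h2
    rwa [map_ofNat] at h1
  refine ⟨HcK k K Ω (2 ^ m), ?_, fun n hn => (hact m).hc h2 hn⟩
  rw [hNN]
  exact NN_subset_NP h2K (HcK_mem m)

/-- **All facts about the degree** for a system over `Gal(Ω / K)`. -/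
theorem degOkK (h2 : (2 : k) ≠ 0) {fr : Ω ≃ₐ[K] Ω} (hfr : IsFrC k fr)
    (S : SmN.Sys (Ω ≃ₐ[K] Ω) V V1 (Place k K)) (hNN : S.NN = NP K Ω)
    (hD : ∀ v, S.D v = dvK Ω v) (hsg : ∀ v, S.sg v = sgK Ω v)
    (H : SmNH.HData V (MuT Ω) (Place k K)) (hdeg : ∀ v, H.deg v = v.degree)
    (hH : SmNH.HOk S H)
    {dg : ℕ → (Ω ≃ₐ[K] Ω) → ℕ} (hdg : Pool.Agent.SmH.IsDeg dg)
    (hact : ∀ m, IsDegK k m (dg m)) : SmNH.DegOk S H dg where
  fi N hN := NP.finiteIndex (hNN ▸ hN)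
  deg := hdg
  tf := degTFK h2 S hNN hact
  unr v _ m := by
    have hsc : IsSepClosed Ω := IsSepClosure.sep_closed K
    have hg : IsGalois K Ω := IsSepClosure.isGalois
    rw [hsg v]
    exact (hact m).geo h2 (iner_le_GeoK _ (sgK_iner h2 v))
  recip := recDegK h2 hfr S hNN hD hsg hdeg hH.prod hdg hact

end Pool.Agent.Ht.RK
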