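import Pool.Agent.Lib.Ht.RK.Gal

set_option autoImplicit false

/-!
HEIGHTS over SMITH-U, reciprocity, local part: if `deg ∪ c = dB` on the decomposition group then
`c τ ^ deg φ = 1`, `τ` in the inertia group.
-/

namespace Pool.Agent.Ht.RK

open Pool.Agent.Lib.SmD Pool.Agent.SmD

variable {K Ω : Type} [Field K] [Field Ω] [Algebra K Ω]

theorem kum_pow {e : ℕ} {r : Ωˣ} {π : K} (hr : (r : Ω) ^ (2 ^ e) = algebraMap K Ω π)
    (s : Ω ≃ₐ[K] Ω) : (s • r * r⁻¹) ^ (2 ^ e) = 1 := by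
  have h1 : s • (r ^ (2 ^ e)) = r ^ (2 ^ e) := by
    apply Units.ext
    change s ((r ^ (2 ^ e) : Ωˣ) : Ω) = _
    rw [Units.val_pow_eq_pow_val, hr, AlgEquiv.commutes]
  rw [mul_pow, inv_pow, ← smul_pow', h1, mul_inv_cancel]

/-- the Kummer character of an element of `K` and conjugation -/
theorem kum_conj {e : ℕ} {w : ValuationSubring Ω} (h2 : w.valuation 2 = 1) {r : Ωˣ} {π : K}
    (hr : (r : Ω) ^ (2 ^ e) = algebraMap K Ω π) {φ τ : Ω ≃ₐ[K] Ω} (hτ : τ ∈ iner K w) :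
    (φ * τ * φ⁻¹) • r * r⁻¹ = φ • (τ • r * r⁻¹) := by
  have h1 : φ⁻¹ • r = (φ⁻¹ • r * r⁻¹) * r := by rw [inv_mul_cancel_right]
  have h3 : τ • (φ⁻¹ • r * r⁻¹) = φ⁻¹ • r * r⁻¹ := mu_fix_iner h2 hτ e (kum_pow hr φ⁻¹)
  rw [mul_smul, mul_smul]
  conv_lhs => rw [h1, smul_mul', h3, smul_mul', smul_mul', smul_inv', smul_inv_smul]
  rw [smul_mul', smul_inv']
  generalize φ • τ • r = a
  generalize φ • r = b
  rw [mul_comm (r * b⁻¹), mul_assoc, mul_comm r, mul_assoc, mul_inv_cancel, mul_one]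

/-- if `deg ∪ c` is a coboundary on the decomposition group then `c τ ^ deg φ = 1` -/
theorem split_one [IsGalois K Ω] [IsSepClosed Ω] (h2 : (2 : Ω) ≠ 0) (e : ℕ)
    {w : ValuationSubring Ω} {π : K} (hL : LocHyp K w π) {d : (Ω ≃ₐ[K] Ω) → ℕ}
    (hd0 : ∀ s ∈ iner K w, d s ≡ 0 [MOD 2 ^ e]) {c : (Ω ≃ₐ[K] Ω) → Ωˣ}
    (hcM : ∀ s ∈ dec K w, c s ^ (2 ^ e) = 1) {B : (Ω ≃ₐ[K] Ω) → Ωˣ} (hB : LC (dec K w) B)
    (hs : Spl (dec K w) (fun s t => (s • c t) ^ d s) B) {φ τ : Ω ≃ₐ[K] Ω} (hφ : φ ∈ dec K w)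
    (hτ : τ ∈ iner K w) : c τ ^ d φ = 1 := by
  have hID : ∀ s ∈ iner K w, s ∈ dec K w := fun s hs => iner_le_dec _ _ hs
  have hscM : ∀ s t : Ω ≃ₐ[K] Ω, t ∈ dec K w → (s • c t) ^ (2 ^ e) = 1 := fun s t ht => by
    rw [← smul_pow', hcM t ht, smul_one]
  obtain ⟨b, hbM, hb, hbs⟩ := kumStep h2 e (dec K w) (fun s t => (s • c t) ^ d s)
    (fun s _ t ht => by
      change ((s • c t) ^ d s) ^ (2 ^ e) = 1
      rw [← pow_mul, mul_comm, pow_mul, hscM s t ht, one_pow]) B hB hs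
  -- `b` on the inertia group
  have hbI : ∀ s ∈ iner K w, ∀ t ∈ dec K w, b (s * t) = b s * b t := by
    intro s hs t ht
    have h1 := hbs s (hID s hs) t ht
    have h3 : (s • c t) ^ d s = 1 := by
      have h4 := hscM s t ht
      rw [pow_eq_pow_mod _ h4, hd0 s hs, Nat.zero_mod, pow_zero]
    change (s • c t) ^ d s = b s * s • b t * (b (s * t))⁻¹ at h1
    rw [h3, mu_fix_iner hL.two hs e (hbM t)] at h1
    exact (mul_inv_eq_one.1 h1.symm).symm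
  have hπ0 : algebraMap K Ω π ≠ 0 := by
    rw [Ne, map_eq_zero]
    exact hL.pi_ne
  obtain ⟨r, hr⟩ := exists_root h2 e (Units.mk0 _ hπ0)
  have hr' : (r : Ω) ^ (2 ^ e) = algebraMap K Ω π := by
    rw [← Units.val_pow_eq_pow_val, hr, Units.val_mk0]
  obtain ⟨m, hm⟩ := iner_hom e hL hr' b (fun s _ => hbM s) (hb.mono (iner_le_dec _ _))
    (fun s hs t ht => hbI s hs t (hID t ht))
  have hτ' : φ * τ * φ⁻¹ ∈ iner K w := iner_conj hφ hτ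
  have h4 : b (φ * τ * φ⁻¹) = φ • b τ := by
    have h5 : ∀ (u : Ωˣ) (j : ℤ), φ • (u ^ j) = (φ • u) ^ j := fun u j =>
      map_zpow (MulDistribMulAction.toMonoidHom Ωˣ φ) u j
    rw [hm _ hτ', hm _ hτ, h5, kum_conj hL.two hr' hτ]
  have h1 := hbs φ hφ τ (hID τ hτ)
  change (φ • c τ) ^ d φ = b φ * φ • b τ * (b (φ * τ))⁻¹ at h1
  have h3 : φ * τ = φ * τ * φ⁻¹ * φ := by rw [inv_mul_cancel_right]
  rw [h3, hbI _ hτ' _ hφ, h4, mul_comm (b φ), mul_inv_cancel, ← smul_pow'] at h1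
  have h7 : φ⁻¹ • (φ • c τ ^ d φ) = φ⁻¹ • (1 : Ωˣ) := congrArg (fun u : Ωˣ => φ⁻¹ • u) h1
  rw [← mul_smul, inv_mul_cancel, one_smul, smul_one] at h7
  exact h7

end Pool.Agent.Ht.RK
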