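import Pool.Agent.Lib.Ht.RK.Glob
import Pool.Agent.Lib.Ht.RK.Loc
import Pool.Agent.Lib.Ht.R.Inst

set_option autoImplicit false

/-!
HEIGHTS over SMITH-U, reciprocity: `RecDeg` over a global function field `K` with constant field `k`
(there is an element `fr` of `Gal(Ω / K)` which acts on the constants as the Frobenius automorphism of
`k`), from the product formula.
-/

namespace Pool.Agent.Ht.RK

open Pool.Agent.SmithC Pool.Agent.Lib.SmD Pool.Agent.GBU Pool.Agent.GBUH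
open Pool.Agent.SmD Pool.Agent.BSDFF Pool.Agent.SmP Pool.Agent.Ht

theorem ofM_smulK {K Ω : Type} [Field K] [Field Ω] [Algebra K Ω] (s : Ω ≃ₐ[K] Ω) (m : MuT Ω) :
    ofM (s • m) = s • ofM m := rfl

section kum

variable {k K Ω : Type} [Field k] [Finite k] [Field K] [Algebra k K] [Field Ω] [Algebra K Ω]

omit [Field K] [Algebra k K] [Field Ω] [Algebra K Ω] in
theorem odd_cardK (h2 : (2 : k) ≠ 0) : Odd (Nat.card k) := by
  classical
  have : Fintype k := Fintype.ofFinite k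
  have h1 : ringChar k ≠ 2 := by
    intro h
    apply h2
    have := ringChar.charP k
    rw [h] at this
    exact CharP.cast_eq_zero k 2
  rw [Nat.card_eq_fintype_card, Nat.odd_iff]
  exact FiniteField.odd_card_of_char_ne_two h1

omit [Algebra k K] in
/-- the elements which fix the constants of level `2 ^ r` fix the roots of unity of order `2 ^ r` -/
theorem hc_mu (h2 : (2 : k) ≠ 0) {r : ℕ} {n : Ω ≃ₐ[K] Ω} (hn : n ∈ HcK k K Ω (2 ^ r)) {u : Ωˣ}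
    (hu : u ^ (2 ^ r) = 1) : n • u = u := by
  apply Units.ext
  change n (u : Ω) = u
  apply hn
  have h1 : Nat.card k ^ (2 ^ r) ≡ 1 [MOD 2 ^ r] := by
    have hcop : Nat.Coprime (Nat.card k) (2 ^ r) :=
      Nat.Coprime.pow_right r (odd_cardK h2).coprime_two_right
    have h3 := Nat.ModEq.pow_totient hcop
    have h4 : Nat.totient (2 ^ r) ∣ 2 ^ r := by
      cases r with
      | zero => simp
      | succ r =>
        rw [Nat.totient_prime_pow_succ Nat.prime_two]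
        simp only [Nat.add_one_sub_one, mul_one]
        exact pow_dvd_pow 2 (Nat.le_succ r)
    obtain ⟨m, hm⟩ := h4
    have h5 := h3.pow m
    rwa [← pow_mul, one_pow, ← hm] at h5
  have h3 : u ^ (Nat.card k ^ (2 ^ r)) = u := by
    rw [pow_eq_pow_mod _ hu, h1, ← pow_eq_pow_mod _ hu, pow_one]
  rw [← Units.val_pow_eq_pow_val, h3]

/-- the Kummer cocycle of an element of `K` is finite -/
theorem exists_NN_kumK [IsGalois K Ω] (h2 : (2 : k) ≠ 0) (r : ℕ) {y : Ωˣ}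
    (hy : ∀ g : Ω ≃ₐ[K] Ω, g • (y ^ (2 ^ r)) = y ^ (2 ^ r)) :
    ∃ N ∈ NN K Ω, ∀ n ∈ N, ∀ s : Ω ≃ₐ[K] Ω, (s * n) • y = s • y := by
  have hκ : ∀ g : Ω ≃ₐ[K] Ω, (g • y * y⁻¹) ^ (2 ^ r) = 1 := fun g => by
    rw [mul_pow, inv_pow, ← smul_pow', hy, mul_inv_cancel]
  have hkr : ∀ g : Ω ≃ₐ[K] Ω, g • y = (g • y * y⁻¹) * y := fun g => by
    rw [inv_mul_cancel_right]
  have hN0m := HcK_mem (k := k) (K := K) (Ω := Ω) r
  set N0 : Subgroup (Ω ≃ₐ[K] Ω) := HcK k K Ω (2 ^ r) with hN0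
  have hN0u : ∀ n ∈ N0, ∀ u : Ωˣ, u ^ (2 ^ r) = 1 → n • u = u := fun n hn u hu => hc_mu h2 hn hu
  set N1 : Subgroup (Ω ≃ₐ[K] Ω) := N0 ⊓ MulAction.stabilizer (Ω ≃ₐ[K] Ω) y with hN1
  have hmem : ∀ n, n ∈ N1 ↔ n ∈ N0 ∧ n • y = y := fun n => Iff.rfl
  have hnorm : N1.Normal := by
    refine ⟨fun n hn g => ?_⟩
    rw [hmem] at hn ⊢
    refine ⟨(NN.normal hN0m).conj_mem n hn.1 g, ?_⟩
    rw [mul_smul, mul_smul, hkr g⁻¹, smul_mul', hN0u n hn.1 _ (hκ g⁻¹), hn.2, ← hkr,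
      smul_inv_smul]
  have hopen : IsOpen (N1 : Set (Ω ≃ₐ[K] Ω)) := by
    have h1 : MulAction.stabilizer (Ω ≃ₐ[K] Ω) y = MulAction.stabilizer (Ω ≃ₐ[K] Ω) (y : Ω) := by
      ext g
      rw [MulAction.mem_stabilizer_iff, MulAction.mem_stabilizer_iff, Units.ext_iff]
      rfl
    rw [hN1, Subgroup.coe_inf, h1]
    exact (NN.isOpen hN0m).inter (stabilizer_isOpen_of_isIntegral (K := K) _)
  have hpow : ∀ σ : Ω ≃ₐ[K] Ω, ∃ m : ℕ, σ ^ (2 ^ m) ∈ N1 := by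
    intro σ
    obtain ⟨r0, hr0⟩ := hN0m.2.2
    have hn := NN.normal hN0m
    have h1 : σ ^ (2 ^ r0) ∈ N0 := by
      rw [← hr0]
      exact Subgroup.pow_index_mem N0 σ
    have h3 : ∀ j : ℕ, ((σ ^ (2 ^ r0)) ^ j) • y * y⁻¹ = (σ ^ (2 ^ r0) • y * y⁻¹) ^ j := by
      intro j
      induction j with
      | zero => rw [pow_zero, pow_zero, one_smul, mul_inv_cancel]
      | succ j ih =>
        rw [pow_succ, cob_coc, ih, pow_succ, hN0u _ (N0.pow_mem h1 j) _ (hκ _)]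
    refine ⟨r0 + r, ?_⟩
    rw [pow_add 2, pow_mul]
    refine (hmem _).2 ⟨N0.pow_mem h1 _, ?_⟩
    rw [hkr, h3, hκ, one_mul]
  refine ⟨N1, mem_NN_of_pow hnorm hopen hpow, fun n hn s => ?_⟩
  rw [mul_smul, ((hmem n).1 hn).2]

end kum

section exp

variable {K Ω : Type} [Field K] [Field Ω] [Algebra K Ω] [IsGalois K Ω]

theorem finite_range_onK {α : Type} {N A : Subgroup (Ω ≃ₐ[K] Ω)}
    (hNo : IsOpen (N : Set (Ω ≃ₐ[K] Ω))) {f : (Ω ≃ₐ[K] Ω) → α}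
    (h : ∀ s ∈ A, ∀ n ∈ N, n ∈ A → f (s * n) = f s) :
    (f '' (A : Set (Ω ≃ₐ[K] Ω))).Finite := by
  classical
  have hfin : Finite ((Ω ≃ₐ[K] Ω) ⧸ N) := Subgroup.quotient_finite_of_isOpen N hNo
  let g : (Ω ≃ₐ[K] Ω) ⧸ N → Set α := fun x =>
    {a | ∃ s ∈ A, (QuotientGroup.mk s : (Ω ≃ₐ[K] Ω) ⧸ N) = x ∧ f s = a}
  have hg : ∀ x, (g x).Finite := by
    intro x
    by_cases hx : (g x).Nonempty
    · obtain ⟨a, s, hs, hsx, -⟩ := hx
      refine (Set.finite_singleton (f s)).subset ?_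
      rintro b ⟨t, ht, htx, rfl⟩
      rw [Set.mem_singleton_iff]
      have h1 : s⁻¹ * t ∈ N := QuotientGroup.eq.1 (hsx.trans htx.symm)
      have h3 := h s hs _ h1 (A.mul_mem (A.inv_mem hs) ht)
      rwa [mul_inv_cancel_left] at h3
    · rw [Set.not_nonempty_iff_eq_empty] at hx
      rw [hx]
      exact Set.finite_empty
  refine (Set.finite_iUnion hg).subset ?_
  rintro a ⟨s, hs, rfl⟩
  exact Set.mem_iUnion.2 ⟨QuotientGroup.mk s, s, hs, rfl, rfl⟩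

/-- `c` is right invariant under a group of `NP` on the subgroup `A` -/
def TFK {α : Type} (A : Subgroup (Ω ≃ₐ[K] Ω)) (c : (Ω ≃ₐ[K] Ω) → α) : Prop :=
  ∃ N ∈ NP K Ω, ∀ s ∈ A, ∀ n ∈ N, n ∈ A → c (s * n) = c s

omit [IsGalois K Ω] in
theorem TFK.lc {α : Type} {A : Subgroup (Ω ≃ₐ[K] Ω)} {c : (Ω ≃ₐ[K] Ω) → α} (h : TFK A c) :
    LC A c := by
  obtain ⟨N, hN, h1⟩ := h
  exact ⟨N, NP.normal hN, NP.isOpen hN, fun s hs n hn hnA => h1 s hs n hn hnA⟩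

theorem TFK.exp {A : Subgroup (Ω ≃ₐ[K] Ω)} {c : (Ω ≃ₐ[K] Ω) → MuT Ω} (h : TFK A c) :
    ∃ e : ℕ, ∀ s ∈ A, (2 : ℕ) ^ e • c s = 0 := by
  obtain ⟨N, hN, h1⟩ := h
  have h3 := finite_range_onK (NP.isOpen hN) h1
  have h4 : (Set.range fun s : A => c s).Finite := by
    refine h3.subset ?_
    rintro _ ⟨s, rfl⟩
    exact ⟨s, s.2, rfl⟩
  obtain ⟨e, he⟩ := exists_exp h4
  exact ⟨e, fun s hs => he ⟨s, hs⟩⟩

theorem exp_twoK {F : (Ω ≃ₐ[K] Ω) → (Ω ≃ₐ[K] Ω) → MuT Ω}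
    (h : ∃ N ∈ NP K Ω, ∀ s t, ∀ n ∈ N, ∀ m ∈ N, F (s * n) (t * m) = F s t) :
    ∃ e : ℕ, ∀ s t, (2 : ℕ) ^ e • F s t = 0 := by
  classical
  obtain ⟨N, hN, h1⟩ := h
  have hfin : Finite ((Ω ≃ₐ[K] Ω) ⧸ N) := Subgroup.quotient_finite_of_isOpen N (NP.isOpen hN)
  have h3 : (Set.range fun p : (Ω ≃ₐ[K] Ω) × (Ω ≃ₐ[K] Ω) => F p.1 p.2).Finite := by
    refine (Set.finite_range fun x : ((Ω ≃ₐ[K] Ω) ⧸ N) × ((Ω ≃ₐ[K] Ω) ⧸ N) =>
      F x.1.out x.2.out).subset ?_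
    rintro _ ⟨⟨s, t⟩, rfl⟩
    refine ⟨(QuotientGroup.mk s, QuotientGroup.mk t), ?_⟩
    have key : ∀ s : Ω ≃ₐ[K] Ω, ∃ n ∈ N,
        (QuotientGroup.mk s : (Ω ≃ₐ[K] Ω) ⧸ N).out = s * n := by
      intro s
      obtain ⟨n, hn⟩ := QuotientGroup.mk_out_eq_mul N s
      exact ⟨n, n.2, hn⟩
    obtain ⟨n, hn, hn'⟩ := key s
    obtain ⟨m, hm, hm'⟩ := key t
    change F (QuotientGroup.mk s : (Ω ≃ₐ[K] Ω) ⧸ N).out
      (QuotientGroup.mk t : (Ω ≃ₐ[K] Ω) ⧸ N).out = F s t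
    rw [hn', hm', h1 s t n hn m hm]
  obtain ⟨e, he⟩ := exists_exp h3
  exact ⟨e, fun s t => he (s, t)⟩

end exp

section

variable {k K Ω : Type} [Field k] [Finite k] [Field K] [Algebra k K] [Algebra (RatFunc k) K]
  [IsScalarTower k (RatFunc k) K] [FiniteDimensional (RatFunc k) K]
  [Algebra.IsSeparable (RatFunc k) K] [Field Ω] [Algebra K Ω] [IsSepClosure K Ω]

variable (Ω) in
/-- the degrees of the places -/
def IsPDegK (deg : Place k K → ℕ) : Prop :=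
  ∀ (v : Place k K) (x : Ω), IsC k x → phK Ω v x = x ^ (Nat.card k ^ deg v)

/-- RecDeg over `K` from the product formula -/
theorem rec_degK (h2 : (2 : k) ≠ 0) {fr : Ω ≃ₐ[K] Ω} (hfr : IsFrC k fr)
    {nm : Place k K → MuT Ω →+ MuT Ω} {deg : Place k K → ℕ} (hdeg : IsPDegK Ω deg)
    {dg : ℕ → (Ω ≃ₐ[K] Ω) → ℕ} (hdg : Pool.Agent.SmH.IsDeg dg) (hact : ∀ m, IsDegK k m (dg m))
    (hprod : ∀ h : (Ω ≃ₐ[K] Ω) → MuT Ω, (∃ N ∈ NP K Ω, ∀ s, ∀ n ∈ N, h (s * n) = h s) →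
      (∀ s t, h (s * t) = h s + s • h t) → ∑ᶠ v, deg v • nm v (h (sgK Ω v)) = 0)
    (F : (Ω ≃ₐ[K] Ω) → (Ω ≃ₐ[K] Ω) → MuT Ω) (c B : Place k K → (Ω ≃ₐ[K] Ω) → MuT Ω)
    (hF : ∃ N ∈ NP K Ω, ∀ s t, ∀ n ∈ N, ∀ m ∈ N, F (s * n) (t * m) = F s t)
    (hFc : ∀ s t w, F s t + F (s * t) w = s • F t w + F s (t * w))
    (hcT : ∀ v, TFK (dvK Ω v) (c v)) (hBT : ∀ v, TFK (dvK Ω v) (B v))
    (hFB : ∀ v, ∀ s ∈ dvK Ω v, ∀ t ∈ dvK Ω v,
      F s t = Pool.Agent.SmH.ds dg s (s • c v t) + (B v s + s • B v t - B v (s * t))) :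
    ∑ᶠ v, deg v • nm v (c v (sgK Ω v)) = 0 := by
  classical
  have hsc : IsSepClosed Ω := IsSepClosure.sep_closed K
  have hgal : IsGalois K Ω := IsSepClosure.isGalois
  have h2Ω : (2 : Ω) ≠ 0 := by
    have h1 := (map_ne_zero_iff _ ((algebraMap K Ω).comp (algebraMap k K)).injective).2 h2
    rwa [map_ofNat] at h1
  obtain ⟨eF, heF⟩ := exp_twoK hF
  obtain ⟨r, y, β, hy, hβl, hβ⟩ := glob_split h2 hfr eF (fun s t => ofM (F s t))
    (fun s t => ofM_pow (heF s t)) (by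
      obtain ⟨N, hN, h1⟩ := hF
      exact ⟨N, NP.isOpen hN, fun s t n hn m hm => congrArg ofM (h1 s t n hn m hm)⟩)
    (fun s t w => by
      change ofM (F s t) * ofM (F (s * t) w) = s • ofM (F t w) * ofM (F s (t * w))
      rw [← ofM_add, ← ofM_smulK, ← ofM_add, hFc])
  have hβ' := hβ (dg r) (hact r)
  have hκ : ∀ g : Ω ≃ₐ[K] Ω, (g • y * y⁻¹) ^ (2 ^ r) = 1 := fun g => by
    rw [mul_pow, inv_pow, ← smul_pow', hy, mul_inv_cancel]
  have hsκ : ∀ s t : Ω ≃ₐ[K] Ω, (s • (t • y * y⁻¹)) ^ (2 ^ r) = 1 := fun s t => by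
    rw [← smul_pow', hκ, smul_one]
  -- the local computation
  have key : ∀ v, deg v • nm v (c v (sgK Ω v)) =
      deg v • nm v (toM (sgK Ω v • y * y⁻¹)) := by
    intro v
    obtain ⟨ev, hev⟩ := (hcT v).exp
    set e : ℕ := r + ev with he
    have hτ : sgK Ω v ∈ iner K (abK Ω v) := sgK_iner h2 v
    have hτD : sgK Ω v ∈ dvK Ω v := hτ.1
    have hφ : phK Ω v ∈ dvK Ω v := phK_mem v
    obtain ⟨π, hπ⟩ := IsDiscreteValuationRing.exists_irreducible v.ring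
    have hL := locHyp_of_below h2 v (abK Ω v) (below_abK Ω v) hπ
    have hcM : ∀ s ∈ dvK Ω v, ofM (c v s) ^ (2 ^ e) = 1 := fun s hs =>
      ofM_pow (exp_le (by omega) (hev s hs))
    have hκe : ∀ g : Ω ≃ₐ[K] Ω, (g • y * y⁻¹) ^ (2 ^ e) = 1 := fun g => by
      rw [he, pow_add 2, pow_mul, hκ, one_pow]
    have hl : LC (dvK Ω v) (fun s => β s * (ofM (B v s))⁻¹) :=
      ((hβl.mono le_top).prod ((hBT v).lc.comp ofM)).comp fun x : Ωˣ × Ωˣ => x.1 * x.2⁻¹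
    have h1 := split_one h2Ω e hL (d := dg e) (fun s hs => (hact e).geo h2 (iner_le_GeoK _ hs))
      (c := fun s => ofM (c v s) * (s • y * y⁻¹)⁻¹)
      (fun s hs => by
        rw [mul_pow, hcM s hs, one_mul, inv_pow, hκe, inv_one]) hl
      (fun s hs t ht => by
        have h3 : (s • (t • y * y⁻¹)) ^ dg e s = (s • (t • y * y⁻¹)) ^ dg r s :=
          pow_modEq (hsκ s t) (hdg.le (by omega) s)
        have h4 : (2 : ℕ) ^ e • (s • c v t) = 0 := by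
          rw [smul_comm, exp_le (by omega) (hev t ht), smul_zero]
        have h5 : ofM (F s t) = (s • ofM (c v t)) ^ dg e s *
            (ofM (B v s) * s • ofM (B v t) * (ofM (B v (s * t)))⁻¹) := by
          rw [hFB v s hs t ht, Pool.Agent.SmH.ds_eq hdg s h4, ofM_add, ofM_nsmul, ofM_smulK,
            ofM_sub, ofM_add, ofM_smulK]
        have h6 : ofM (F s t) = (s • (t • y * y⁻¹)) ^ dg r s *
            (β s * s • β t * (β (s * t))⁻¹) := hβ' s t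
        change (s • (ofM (c v t) * (t • y * y⁻¹)⁻¹)) ^ dg e s =
          β s * (ofM (B v s))⁻¹ * s • (β t * (ofM (B v t))⁻¹) *
            (β (s * t) * (ofM (B v (s * t)))⁻¹)⁻¹
        rw [smul_mul' s (ofM (c v t)), smul_inv' s (t • y * y⁻¹), mul_pow, inv_pow, h3,
          eq_mul_inv_of_mul_eq h5.symm, eq_mul_inv_of_mul_eq h6.symm, smul_mul' s (β t),
          smul_inv' s (ofM (B v t))]
        generalize ofM (F s t) = f
        generalize ofM (B v s) = b1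
        generalize s • ofM (B v t) = b2
        generalize ofM (B v (s * t)) = b3
        generalize β s = a1
        generalize s • β t = a2
        generalize β (s * t) = a3
        have key : ∀ (X : Type) [AddCommGroup X] (f b1 b2 b3 a1 a2 a3 : X),
            f + -(b1 + b2 + -b3) + -(f + -(a1 + a2 + -a3)) =
              a1 + -b1 + (a2 + -b2) + -(a3 + -b3) := by
          intro X _ f b1 b2 b3 a1 a2 a3
          abel
        exact key (Additive Ωˣ) f b1 b2 b3 a1 a2 a3) hφ hτ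
    have hdφ : dg e (phK Ω v) ≡ deg v [MOD 2 ^ e] := (hact e).val h2 (hdeg v)
    have h8 : (ofM (c v (sgK Ω v)) * (sgK Ω v • y * y⁻¹)⁻¹) ^ (2 ^ e) = 1 := by
      rw [mul_pow, hcM _ hτD, one_mul, inv_pow, hκe, inv_one]
    change (ofM (c v (sgK Ω v)) * (sgK Ω v • y * y⁻¹)⁻¹) ^ dg e (phK Ω v) = 1 at h1
    rw [pow_modEq h8 hdφ, mul_pow, inv_pow, mul_inv_eq_one] at h1
    have h9 : deg v • c v (sgK Ω v) = deg v • toM (sgK Ω v • y * y⁻¹) := by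
      rw [← toM_pow (hκ _), ← h1, ← ofM_nsmul, toM_ofM]
    rw [← map_nsmul, h9, map_nsmul]
  rw [finsum_congr key]
  refine hprod (fun s => toM (s • y * y⁻¹)) ?_ (fun s t => ?_)
  · obtain ⟨N, hN, h1⟩ := exists_NN_kumK h2 r hy
    have h2K : (2 : K) ≠ 0 := by
      have h1 := (map_ne_zero_iff _ (algebraMap k K).injective).2 h2
      rwa [map_ofNat] at h1
    exact ⟨N, NN_subset_NP h2K hN, fun s n hn => by
      change toM ((s * n) • y * y⁻¹) = toM (s • y * y⁻¹)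
      rw [h1 n hn s]⟩
  · have h1 : toM ((s * t) • y * y⁻¹) = toM (s • y * y⁻¹) + toM (s • (t • y * y⁻¹)) := by
      rw [cob_coc, toM_mul (hκ s) (hsκ s t)]
    have h3 : toM (s • (t • y * y⁻¹)) = s • toM (t • y * y⁻¹) := by
      apply MuT.el_inj
      rw [toM_el (hsκ s t), MuT.el_smul, toM_el (hκ t)]
      rfl
    change toM ((s * t) • y * y⁻¹) = toM (s • y * y⁻¹) + s • toM (t • y * y⁻¹)
    rw [h1, h3]

end

end Pool.Agent.Ht.RK
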